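import Mathlib
import Pool.Agent.Q167.SL.StmC

set_option autoImplicit false

/-!
Project SL2: bounds for the hyperbolic sums.
-/

open MeasureTheory Filter Topology

namespace Pool.Agent.Q2.SL

open Pool.Agent.Q167.SL

/-! ## Bounds -/

theorem sech_le (t : ℝ) : 1 / Real.cosh t ≤ 2 * Real.exp (-|t|) := by
  rw [← Real.cosh_abs t, Real.cosh_eq, Real.exp_neg]
  have h1 := Real.exp_pos |t|
  have h2 := Real.exp_pos (-|t|)
  rw [Real.exp_neg] at h2
  rw [div_le_iff₀ (by positivity)]
  have h3 : Real.exp |t| * (Real.exp |t|)⁻¹ = 1 := mul_inv_cancel₀ h1.ne'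
  nlinarith

theorem summable_nat {η : ℝ} (hη : 0 < η) : Summable fun n : ℕ => Real.exp (-((2 * n + 1) * η)) := by
  have h1 : ∀ n : ℕ, Real.exp (-((2 * n + 1) * η)) = Real.exp (-η) * Real.exp (-(2 * η)) ^ n := by
    intro n
    rw [← Real.exp_nat_mul, ← Real.exp_add]
    congr 1
    ring
  simp only [h1]
  apply Summable.mul_left
  apply summable_geometric_of_lt_one (Real.exp_pos _).le
  rw [Real.exp_lt_one_iff]
  linarith

theorem summable_int {η : ℝ} (hη : 0 < η) :
    Summable fun l : ℤ => Real.exp (-(|2 * (l : ℝ) + 1| * η)) := by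
  apply Summable.of_nat_of_neg_add_one
  · refine (summable_nat hη).congr fun n => ?_
    congr 3
    push_cast
    rw [abs_of_pos (by positivity)]
  · refine (summable_nat hη).congr fun n => ?_
    congr 3
    push_cast
    rw [show 2 * (-((n : ℝ) + 1)) + 1 = -(2 * n + 1) by ring, abs_neg, abs_of_pos (by positivity)]

theorem exp_bound {η R x : ℝ} (hη : 0 < η) (hx : |x| ≤ R) (l : ℤ) :
    Real.exp (-|x - (2 * l + 1) * η|) ≤ Real.exp R * Real.exp (-(|2 * (l : ℝ) + 1| * η)) := by
  rw [← Real.exp_add]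
  apply Real.exp_le_exp.mpr
  have h1 : |(2 * (l : ℝ) + 1) * η| = |2 * (l : ℝ) + 1| * η := by rw [abs_mul, abs_of_pos hη]
  have h2 : |(2 * (l : ℝ) + 1) * η| ≤ |x - (2 * l + 1) * η| + |x| := by
    have h3 : (2 * (l : ℝ) + 1) * η = -(x - (2 * l + 1) * η) + x := by ring
    calc |(2 * (l : ℝ) + 1) * η| = |-(x - (2 * l + 1) * η) + x| := by rw [← h3]
      _ ≤ |-(x - (2 * l + 1) * η)| + |x| := abs_add_le _ _
      _ = _ := by rw [abs_neg]
  rw [h1] at h2
  linarith

theorem sech_bound {η R x : ℝ} (hη : 0 < η) (hx : |x| ≤ R) (l : ℤ) :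
    1 / Real.cosh (x - (2 * l + 1) * η) ≤
      2 * Real.exp R * Real.exp (-(|2 * (l : ℝ) + 1| * η)) := by
  have h1 := sech_le (x - (2 * l + 1) * η)
  have h2 := exp_bound hη hx l
  nlinarith

theorem sech_summable {η : ℝ} (hη : 0 < η) (x : ℝ) :
    Summable fun l : ℤ => 1 / Real.cosh (x - (2 * l + 1) * η) := by
  refine Summable.of_nonneg_of_le (fun l => by positivity)
    (fun l => sech_bound hη (le_refl |x|) l) ((summable_int hη).mul_left _)

theorem sech_le_one (t : ℝ) : 1 / Real.cosh t ≤ 1 := by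
  rw [div_le_one (Real.cosh_pos t)]
  exact Real.one_le_cosh t

theorem sech2_le (t : ℝ) : 1 / Real.cosh t ^ 2 ≤ 1 / Real.cosh t := by
  have h1 := Real.one_le_cosh t
  apply one_div_le_one_div_of_le (Real.cosh_pos t)
  nlinarith

theorem sech2_summable {η : ℝ} (hη : 0 < η) (x : ℝ) :
    Summable fun l : ℤ => 1 / Real.cosh (x - (2 * l + 1) * η) ^ 2 :=
  Summable.of_nonneg_of_le (fun l => by positivity) (fun l => sech2_le _) (sech_summable hη x)

/-! ## The function `yf` -/

theorem yf_eq (η x : ℝ) : yf η x = 1 / 2 * ∑' l : ℤ, 1 / Real.cosh (x - (2 * l + 1) * η) := by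
  unfold yf
  rw [← tsum_mul_left]
  apply tsum_congr
  intro l
  rw [one_div_mul_one_div]

theorem yf_summable {η : ℝ} (hη : 0 < η) (x : ℝ) :
    Summable fun l : ℤ => 1 / (2 * Real.cosh (x - (2 * l + 1) * η)) := by
  refine ((sech_summable hη x).mul_left (1 / 2)).congr fun l => ?_
  rw [one_div_mul_one_div]

theorem yf_pos {η : ℝ} (hη : 0 < η) (x : ℝ) : 0 < yf η x :=
  (yf_summable hη x).tsum_pos (fun l => by positivity) 0 (by positivity)

theorem yf_periodic (η x : ℝ) : yf η (x + 2 * η) = yf η x := by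
  unfold yf
  rw [← (Equiv.addRight (1 : ℤ)).tsum_eq
    (fun l : ℤ => 1 / (2 * Real.cosh (x + 2 * η - (2 * l + 1) * η)))]
  apply tsum_congr
  intro l
  congr 3
  simp only [Equiv.coe_addRight]
  push_cast
  ring

theorem yf_even (η x : ℝ) : yf η (-x) = yf η x := by
  unfold yf
  rw [← ((Equiv.neg ℤ).trans (Equiv.subRight (1 : ℤ))).tsum_eq
    (fun l : ℤ => 1 / (2 * Real.cosh (-x - (2 * l + 1) * η)))]
  apply tsum_congr
  intro l
  rw [← Real.cosh_neg (x - (2 * l + 1) * η)]
  congr 3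
  simp only [Equiv.trans_apply, Equiv.neg_apply, Equiv.subRight_apply]
  push_cast
  ring

/-- the derivative of the reciprocal of `cosh` -/
theorem hasDerivAt_sech (c t : ℝ) : HasDerivAt (fun x : ℝ => 1 / (2 * Real.cosh (x - c)))
    (-(Real.sinh (t - c) / (2 * Real.cosh (t - c) ^ 2))) t := by
  have h1 : HasDerivAt (fun x : ℝ => x - c) 1 t := (hasDerivAt_id t).sub_const c
  have h2 : HasDerivAt (fun x : ℝ => 2 * Real.cosh (x - c)) (2 * (Real.sinh (t - c) * 1)) t :=
    (h1.cosh).const_mul 2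
  have h3 := h2.fun_inv (by positivity)
  have h4 : (fun x : ℝ => 1 / (2 * Real.cosh (x - c))) = fun x : ℝ => (2 * Real.cosh (x - c))⁻¹ := by
    funext x
    rw [one_div]
  rw [h4]
  refine h3.congr_deriv ?_
  have h5 := (Real.cosh_pos (t - c)).ne'
  field_simp

theorem abs_sinh_le (t : ℝ) : |Real.sinh t| ≤ Real.cosh t := by
  rw [abs_le]
  constructor
  · have := Real.cosh_add_sinh t
    have h2 := Real.exp_pos t
    linarith
  · have := Real.cosh_sub_sinh t
    have h2 := Real.exp_pos (-t)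
    linarith

theorem dsech_bound (t : ℝ) : ‖-(Real.sinh t / (2 * Real.cosh t ^ 2))‖ ≤ 1 / Real.cosh t := by
  rw [norm_neg, norm_div, Real.norm_eq_abs, Real.norm_eq_abs]
  have h1 := abs_sinh_le t
  have h2 := Real.cosh_pos t
  rw [abs_of_pos (by positivity : 0 < 2 * Real.cosh t ^ 2), div_le_div_iff₀ (by positivity) h2]
  nlinarith [abs_nonneg (Real.sinh t)]

theorem yf_hasDerivAt {η : ℝ} (hη : 0 < η) (x : ℝ) :
    HasDerivAt (yf η) (∑' l : ℤ, -(Real.sinh (x - (2 * l + 1) * η) /
      (2 * Real.cosh (x - (2 * l + 1) * η) ^ 2))) x := by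
  have h := hasDerivAt_tsum_of_isPreconnected
    (u := fun l : ℤ => 2 * Real.exp (|x| + 1) * Real.exp (-(|2 * (l : ℝ) + 1| * η)))
    (g := fun (l : ℤ) (x : ℝ) => 1 / (2 * Real.cosh (x - (2 * l + 1) * η)))
    (g' := fun (l : ℤ) (x : ℝ) => -(Real.sinh (x - (2 * l + 1) * η) /
      (2 * Real.cosh (x - (2 * l + 1) * η) ^ 2)))
    (t := Metric.ball 0 (|x| + 1)) (y₀ := x) (y := x) ((summable_int hη).mul_left _)
    Metric.isOpen_ball (convex_ball 0 _).isPreconnected (fun l y _ => hasDerivAt_sech _ y)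
    (fun l y hy => (dsech_bound _).trans (sech_bound hη (by
      rw [Metric.mem_ball, dist_zero_right, Real.norm_eq_abs] at hy
      exact hy.le) l)) (by
      rw [Metric.mem_ball, dist_zero_right, Real.norm_eq_abs]
      linarith) (yf_summable hη x) (by
      rw [Metric.mem_ball, dist_zero_right, Real.norm_eq_abs]
      linarith)
  exact h

theorem yf_continuous {η : ℝ} (hη : 0 < η) : Continuous (yf η) :=
  continuous_iff_continuousAt.mpr fun x => (yf_hasDerivAt hη x).continuousAt

theorem yf_deriv_continuous {η : ℝ} (hη : 0 < η) : Continuous (deriv (yf η)) := by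
  have h0 : deriv (yf η) = fun x => ∑' l : ℤ, -(Real.sinh (x - (2 * l + 1) * η) /
      (2 * Real.cosh (x - (2 * l + 1) * η) ^ 2)) := by
    funext x
    exact (yf_hasDerivAt hη x).deriv
  rw [h0, continuous_iff_continuousAt]
  intro x
  have hc : ContinuousOn (fun x => ∑' l : ℤ, -(Real.sinh (x - (2 * l + 1) * η) /
      (2 * Real.cosh (x - (2 * l + 1) * η) ^ 2))) (Metric.ball 0 (|x| + 1)) := by
    refine continuousOn_tsum
      (u := fun l : ℤ => 2 * Real.exp (|x| + 1) * Real.exp (-(|2 * (l : ℝ) + 1| * η)))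
      (fun l => ?_) ((summable_int hη).mul_left _) (fun l y hy => (dsech_bound _).trans
      (sech_bound hη (by
        rw [Metric.mem_ball, dist_zero_right, Real.norm_eq_abs] at hy
        exact hy.le) l))
    apply Continuous.continuousOn
    apply Continuous.neg
    apply Continuous.div
    · exact Real.continuous_sinh.comp (by fun_prop)
    · exact ((Real.continuous_cosh.comp (by fun_prop)).pow 2).const_mul 2
    · intro y
      positivity
  exact hc.continuousAt (Metric.isOpen_ball.mem_nhds (by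
    rw [Metric.mem_ball, dist_zero_right, Real.norm_eq_abs]
    linarith))

theorem yf_bound {η : ℝ} (hη : 0 < η) : ∃ M : ℝ, ∀ x, |Real.log (yf η x)| ≤ M := by
  have hc : Continuous fun x => Real.log (yf η x) :=
    (yf_continuous hη).log fun x => (yf_pos hη x).ne'
  have hp : Function.Periodic (fun x => |Real.log (yf η x)|) (2 * η) := by
    intro x
    show |Real.log (yf η (x + 2 * η))| = |Real.log (yf η x)|
    rw [yf_periodic]
  obtain ⟨M, hM⟩ := (isCompact_Icc (a := (0 : ℝ)) (b := 2 * η)).exists_bound_of_continuousOn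
    hc.continuousOn
  refine ⟨M, fun x => ?_⟩
  obtain ⟨y, hy, hxy⟩ := hp.exists_mem_Ico₀ (by linarith) x
  exact hxy.trans_le (hM y ⟨hy.1, hy.2.le⟩)

/-! ## The function `zf` -/

theorem hasDerivAt_tanh (t : ℝ) : HasDerivAt Real.tanh (1 / Real.cosh t ^ 2) t := by
  have h1 := (Real.hasDerivAt_sinh t).fun_div (Real.hasDerivAt_cosh t) (Real.cosh_pos t).ne'
  have h2 : Real.tanh = fun x => Real.sinh x / Real.cosh x := by
    funext x
    exact Real.tanh_eq_sinh_div_cosh x
  rw [h2]
  refine h1.congr_deriv ?_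
  have h3 := Real.cosh_sq t
  congr 1
  nlinarith

theorem hasDerivAt_zterm (c t : ℝ) :
    HasDerivAt (fun x : ℝ => (Real.tanh (c + x) - Real.tanh (c - x)) / 2)
      ((1 / Real.cosh (t + c) ^ 2 + 1 / Real.cosh (t - c) ^ 2) / 2) t := by
  have h1 : HasDerivAt (fun x : ℝ => c + x) 1 t := (hasDerivAt_id t).const_add c
  have h2 : HasDerivAt (fun x : ℝ => c - x) (-1) t := (hasDerivAt_id t).const_sub c
  have h3 := (hasDerivAt_tanh (c + t)).comp t h1
  have h4 := (hasDerivAt_tanh (c - t)).comp t h2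
  have h5 := (h3.sub h4).div_const 2
  have h6 : (1 / Real.cosh (c + t) ^ 2 * 1 - 1 / Real.cosh (c - t) ^ 2 * -1) / 2 =
      (1 / Real.cosh (t + c) ^ 2 + 1 / Real.cosh (t - c) ^ 2) / 2 := by
    rw [← Real.cosh_neg (c - t), neg_sub, add_comm c t]
    ring
  rw [h6] at h5
  exact h5

theorem zf_zero (η : ℝ) : zf η 0 = 0 := by
  unfold zf
  simp

/-- the sum over the integers as a sum over the natural numbers -/
theorem fold_gen {f : ℤ → ℝ} (h1 : Summable f) :
    HasSum (fun l : ℕ => (f (-((l : ℤ) + 1)) + f l) / 2) (1 / 2 * ∑' l : ℤ, f l) := by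
  have ha : Summable fun n : ℕ => f (n : ℤ) :=
    h1.comp_injective (i := fun n : ℕ => (n : ℤ)) Nat.cast_injective
  have hb : Summable fun n : ℕ => f (-((n : ℤ) + 1)) :=
    h1.comp_injective (i := fun n : ℕ => -((n : ℤ) + 1)) (by
      intro a b h
      simp only [neg_inj, add_left_inj, Nat.cast_inj] at h
      exact h)
  have h3 : HasSum f ((∑' n : ℕ, f (n : ℤ)) + ∑' n : ℕ, f (-((n : ℤ) + 1))) :=
    HasSum.of_nat_of_neg_add_one ha.hasSum hb.hasSum
  rw [h3.tsum_eq]
  have h5 := (hb.hasSum.add ha.hasSum).div_const 2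
  rw [show 1 / 2 * ((∑' n : ℕ, f (n : ℤ)) + ∑' n : ℕ, f (-((n : ℤ) + 1))) =
    ((∑' n : ℕ, f (-((n : ℤ) + 1))) + ∑' n : ℕ, f (n : ℤ)) / 2 by ring]
  exact h5

theorem sum_fold {η : ℝ} (hη : 0 < η) (x : ℝ) :
    HasSum (fun l : ℕ => (1 / Real.cosh (x + (2 * l + 1) * η) ^ 2 +
      1 / Real.cosh (x - (2 * l + 1) * η) ^ 2) / 2)
      (1 / 2 * ∑' l : ℤ, 1 / Real.cosh (x - (2 * l + 1) * η) ^ 2) := by
  have h := fold_gen (sech2_summable hη x)
  have e : (fun l : ℕ => (1 / Real.cosh (x + (2 * l + 1) * η) ^ 2 +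
      1 / Real.cosh (x - (2 * l + 1) * η) ^ 2) / 2) =
      fun l : ℕ => (1 / Real.cosh (x - (2 * ((-((l : ℤ) + 1) : ℤ) : ℝ) + 1) * η) ^ 2 +
        1 / Real.cosh (x - (2 * (((l : ℕ) : ℤ) : ℝ) + 1) * η) ^ 2) / 2 := by
    funext l
    push_cast
    congr 5
    ring
  rw [e]
  exact h

theorem zf_summable {η : ℝ} (hη : 0 < η) (x : ℝ) : Summable fun l : ℕ =>
    (Real.tanh ((2 * l + 1) * η + x) - Real.tanh ((2 * l + 1) * η - x)) / 2 := by
  have h := summable_of_summable_hasDerivAt_of_isPreconnected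
    (u := fun l : ℕ => 2 * Real.exp (|x| + 1) * Real.exp (-((2 * (l : ℝ) + 1) * η)))
    (g := fun (l : ℕ) (x : ℝ) =>
      (Real.tanh ((2 * l + 1) * η + x) - Real.tanh ((2 * l + 1) * η - x)) / 2)
    (g' := fun (l : ℕ) (x : ℝ) => (1 / Real.cosh (x + (2 * l + 1) * η) ^ 2 +
      1 / Real.cosh (x - (2 * l + 1) * η) ^ 2) / 2)
    (t := Metric.ball 0 (|x| + 1)) (y₀ := 0) (y := x) ((summable_nat hη).mul_left _)
    Metric.isOpen_ball (convex_ball 0 _).isPreconnected (fun l y _ => hasDerivAt_zterm _ y)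
    (fun l y hy => ?_) (by
      rw [Metric.mem_ball, dist_zero_right, Real.norm_eq_abs]
      simp only [abs_zero]
      positivity) (by simp) (by
      rw [Metric.mem_ball, dist_zero_right, Real.norm_eq_abs]
      linarith)
  · exact h
  · have hy' : |y| ≤ |x| + 1 := by
      rw [Metric.mem_ball, dist_zero_right, Real.norm_eq_abs] at hy
      exact hy.le
    have h1 := (sech2_le _).trans (sech_bound hη hy' (l : ℤ))
    have h2 := (sech2_le _).trans (sech_bound hη hy' (-((l : ℤ) + 1)))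
    have e1 : |2 * (((-((l : ℤ) + 1) : ℤ)) : ℝ) + 1| = 2 * l + 1 := by
      push_cast
      rw [show 2 * (-((l : ℝ) + 1)) + 1 = -(2 * l + 1) by ring, abs_neg, abs_of_pos (by positivity)]
    have e2 : |2 * (((l : ℤ)) : ℝ) + 1| = 2 * l + 1 := by
      push_cast
      rw [abs_of_pos (by positivity)]
    have e3 : y - (2 * (((-((l : ℤ) + 1) : ℤ)) : ℝ) + 1) * η = y + (2 * l + 1) * η := by
      push_cast
      ring
    rw [e1, e3] at h2
    rw [e2] at h1
    push_cast at h1
    rw [Real.norm_eq_abs, abs_of_nonneg (by positivity)]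
    linarith

theorem zf_hasDerivAt {η : ℝ} (hη : 0 < η) (x : ℝ) :
    HasDerivAt (zf η) (1 / 2 * ∑' l : ℤ, 1 / Real.cosh (x - (2 * l + 1) * η) ^ 2) x := by
  have h := hasDerivAt_tsum_of_isPreconnected
    (u := fun l : ℕ => 2 * Real.exp (|x| + 1) * Real.exp (-((2 * (l : ℝ) + 1) * η)))
    (g := fun (l : ℕ) (x : ℝ) =>
      (Real.tanh ((2 * l + 1) * η + x) - Real.tanh ((2 * l + 1) * η - x)) / 2)
    (g' := fun (l : ℕ) (x : ℝ) => (1 / Real.cosh (x + (2 * l + 1) * η) ^ 2 +
      1 / Real.cosh (x - (2 * l + 1) * η) ^ 2) / 2)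
    (t := Metric.ball 0 (|x| + 1)) (y₀ := 0) (y := x) ((summable_nat hη).mul_left _)
    Metric.isOpen_ball (convex_ball 0 _).isPreconnected (fun l y _ => hasDerivAt_zterm _ y)
    (fun l y hy => ?_) (by
      rw [Metric.mem_ball, dist_zero_right, Real.norm_eq_abs]
      simp only [abs_zero]
      positivity) (by simp) (by
      rw [Metric.mem_ball, dist_zero_right, Real.norm_eq_abs]
      linarith)
  · rw [(sum_fold hη x).tsum_eq] at h
    exact h
  · have hy' : |y| ≤ |x| + 1 := by
      rw [Metric.mem_ball, dist_zero_right, Real.norm_eq_abs] at hy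
      exact hy.le
    have h1 := (sech2_le _).trans (sech_bound hη hy' (l : ℤ))
    have h2 := (sech2_le _).trans (sech_bound hη hy' (-((l : ℤ) + 1)))
    have e1 : |2 * (((-((l : ℤ) + 1) : ℤ)) : ℝ) + 1| = 2 * l + 1 := by
      push_cast
      rw [show 2 * (-((l : ℝ) + 1)) + 1 = -(2 * l + 1) by ring, abs_neg, abs_of_pos (by positivity)]
    have e2 : |2 * (((l : ℤ)) : ℝ) + 1| = 2 * l + 1 := by
      push_cast
      rw [abs_of_pos (by positivity)]
    have e3 : y - (2 * (((-((l : ℤ) + 1) : ℤ)) : ℝ) + 1) * η = y + (2 * l + 1) * η := by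
      push_cast
      ring
    rw [e1, e3] at h2
    rw [e2] at h1
    push_cast at h1
    rw [Real.norm_eq_abs, abs_of_nonneg (by positivity)]
    linarith

/-- the derivative of `zf` -/
noncomputable def dz (η x : ℝ) : ℝ := 1 / 2 * ∑' l : ℤ, 1 / Real.cosh (x - (2 * l + 1) * η) ^ 2

theorem dz_continuous {η : ℝ} (hη : 0 < η) : Continuous (dz η) := by
  apply Continuous.const_mul
  rw [continuous_iff_continuousAt]
  intro x
  have hc : ContinuousOn (fun x => ∑' l : ℤ, 1 / Real.cosh (x - (2 * l + 1) * η) ^ 2)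
      (Metric.ball 0 (|x| + 1)) := by
    refine continuousOn_tsum
      (u := fun l : ℤ => 2 * Real.exp (|x| + 1) * Real.exp (-(|2 * (l : ℝ) + 1| * η)))
      (fun l => ?_) ((summable_int hη).mul_left _) (fun l y hy => ?_)
    · apply Continuous.continuousOn
      apply Continuous.div continuous_const
      · exact (Real.continuous_cosh.comp (by fun_prop)).pow 2
      · intro y
        positivity
    · rw [Real.norm_eq_abs, abs_of_pos (by positivity)]
      exact (sech2_le _).trans (sech_bound hη (by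
        rw [Metric.mem_ball, dist_zero_right, Real.norm_eq_abs] at hy
        exact hy.le) l)
  exact hc.continuousAt (Metric.isOpen_ball.mem_nhds (by
    rw [Metric.mem_ball, dist_zero_right, Real.norm_eq_abs]
    linarith))

theorem zf_continuous {η : ℝ} (hη : 0 < η) : Continuous (zf η) :=
  continuous_iff_continuousAt.mpr fun x => (zf_hasDerivAt hη x).continuousAt

theorem tanh_tendsto : Tendsto Real.tanh atTop (𝓝 1) := by
  have h1 : ∀ x : ℝ, Real.tanh x = (1 - Real.exp (-(2 * x))) / (1 + Real.exp (-(2 * x))) := by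
    intro x
    rw [Real.tanh_eq_sinh_div_cosh, Real.sinh_eq, Real.cosh_eq]
    have h2 : Real.exp (-(2 * x)) = Real.exp (-x) * Real.exp (-x) := by
      rw [← Real.exp_add]
      congr 1
      ring
    have h3 : Real.exp x * Real.exp (-x) = 1 := by
      rw [← Real.exp_add, add_neg_cancel, Real.exp_zero]
    have h4 := Real.exp_pos x
    have h5 := Real.exp_pos (-x)
    rw [h2, div_eq_div_iff (by positivity) (by positivity)]
    linear_combination Real.exp (-x) * h3
  have h2 : Tendsto (fun x : ℝ => Real.exp (-(2 * x))) atTop (𝓝 0) :=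
    Real.tendsto_exp_neg_atTop_nhds_zero.comp
      (tendsto_id.const_mul_atTop (by norm_num : (0 : ℝ) < 2))
  have h3 := ((tendsto_const_nhds (x := (1 : ℝ))).sub h2).div
    ((tendsto_const_nhds (x := (1 : ℝ))).add h2) (by norm_num)
  simp only [sub_zero, add_zero, div_one] at h3
  exact h3.congr fun x => (h1 x).symm

theorem tanh_mono : Monotone Real.tanh := by
  apply monotone_of_deriv_nonneg (fun x => (hasDerivAt_tanh x).differentiableAt)
  intro x
  rw [(hasDerivAt_tanh x).deriv]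
  positivity

theorem zf_eta {η : ℝ} (hη : 0 < η) : zf η η = 1 / 2 := by
  have h1 : HasSum (fun l : ℕ => Real.tanh ((2 * (l + 1 : ℕ)) * η) - Real.tanh ((2 * (l : ℝ)) * η))
      (1 - 0) := by
    rw [hasSum_iff_tendsto_nat_of_nonneg]
    · have h2 : ∀ n : ℕ, ∑ l ∈ Finset.range n, (Real.tanh ((2 * (l + 1 : ℕ)) * η) -
          Real.tanh ((2 * (l : ℝ)) * η)) = Real.tanh ((2 * (n : ℝ)) * η) := by
        intro n
        rw [Finset.sum_range_sub (fun l : ℕ => Real.tanh ((2 * (l : ℝ)) * η))]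
        simp
      simp only [h2, sub_zero]
      apply tanh_tendsto.comp
      have h3 : (fun n : ℕ => 2 * (n : ℝ) * η) = fun n : ℕ => (2 * η) * (n : ℝ) := by
        funext n
        ring
      rw [h3]
      exact tendsto_natCast_atTop_atTop.const_mul_atTop (by positivity)
    · intro l
      rw [sub_nonneg]
      apply tanh_mono
      push_cast
      nlinarith
  unfold zf
  have h2 := (h1.div_const 2).tsum_eq
  rw [sub_zero] at h2
  rw [← h2]
  apply tsum_congr
  intro l
  push_cast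
  congr 3 <;> ring

end Pool.Agent.Q2.SL
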