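import Mathlib
import Pool.Agent.Q167.SL.StmC
import Pool.Agent.Q2.SL.Base

set_option autoImplicit false

/-!
Project SL2, C-CF1: product of the sums over the two cosets.
-/

open MeasureTheory Filter Topology

namespace Pool.Agent.Q2.SL

open Pool.Agent.Q167.SL

/-- telescoping sum over the integers -/
theorem tele_one {F : ℤ → ℝ} (hF : Antitone F) {A B : ℝ}
    (hB : Tendsto (fun n : ℕ => F (n : ℤ)) atTop (𝓝 B))
    (hA : Tendsto (fun n : ℕ => F (-(n : ℤ))) atTop (𝓝 A)) :
    HasSum (fun j : ℤ => F (j - 1) - F j) (A - B) := by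
  have h1 : HasSum (fun n : ℕ => F ((n : ℤ) - 1) - F (n : ℤ)) (F (-1) - B) := by
    rw [hasSum_iff_tendsto_nat_of_nonneg]
    · have h2 : ∀ n : ℕ, ∑ i ∈ Finset.range n, (F ((i : ℤ) - 1) - F (i : ℤ)) =
          F (-1) - F ((n : ℤ) - 1) := by
        intro n
        have h3 := Finset.sum_range_sub' (fun i : ℕ => F ((i : ℤ) - 1)) n
        simp only [Nat.cast_add, Nat.cast_one, add_sub_cancel_right, Nat.cast_zero, zero_sub] at h3
        exact h3
      simp only [h2]
      apply Tendsto.const_sub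
      rw [← tendsto_add_atTop_iff_nat 1]
      simp only [Nat.cast_add, Nat.cast_one, add_sub_cancel_right]
      exact hB
    · intro n
      rw [sub_nonneg]
      exact hF (by omega)
  have h2 : HasSum (fun n : ℕ => F (-((n : ℤ) + 1) - 1) - F (-((n : ℤ) + 1))) (A - F (-1)) := by
    rw [hasSum_iff_tendsto_nat_of_nonneg]
    · have h2 : ∀ n : ℕ, ∑ i ∈ Finset.range n, (F (-((i : ℤ) + 1) - 1) - F (-((i : ℤ) + 1))) =
          F (-((n : ℤ) + 1)) - F (-1) := by
        intro n
        have h3 := Finset.sum_range_sub (fun i : ℕ => F (-((i : ℤ) + 1))) n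
        simp only [Nat.cast_add, Nat.cast_one, Nat.cast_zero, zero_add] at h3
        rw [← h3]
        apply Finset.sum_congr rfl
        intro i _
        rw [show -((i : ℤ) + 1) - 1 = -((i : ℤ) + 1 + 1) by ring]
      simp only [h2]
      apply Tendsto.sub_const
      have h4 := (tendsto_add_atTop_iff_nat 1).mpr hA
      simp only [Nat.cast_add, Nat.cast_one] at h4
      exact h4
    · intro n
      rw [sub_nonneg]
      exact hF (by omega)
  have h3 := HasSum.of_nat_of_neg_add_one (f := fun j : ℤ => F (j - 1) - F j) h1 h2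
  rw [show F (-1) - B + (A - F (-1)) = A - B by ring] at h3
  exact h3

theorem tele {F : ℤ → ℝ} (hF : Antitone F) {A B : ℝ}
    (hB : Tendsto (fun n : ℕ => F (n : ℤ)) atTop (𝓝 B))
    (hA : Tendsto (fun n : ℕ => F (-(n : ℤ))) atTop (𝓝 A)) (N : ℕ) :
    HasSum (fun j : ℤ => F (j - N) - F j) (N * (A - B)) := by
  induction N with
  | zero => simp
  | succ N ih =>
    have h1 := tele_one hF hB hA
    have h2 := ((Equiv.subRight (1 : ℤ)).hasSum_iff.mpr ih).add h1
    have e : (fun j : ℤ => F (j - ((N + 1 : ℕ) : ℤ)) - F j) = fun j : ℤ =>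
        ((fun j : ℤ => F (j - N) - F j) ∘ (Equiv.subRight (1 : ℤ))) j + (F (j - 1) - F j) := by
      funext j
      simp only [Function.comp_apply, Equiv.subRight_apply]
      have e2 : j - ((N + 1 : ℕ) : ℤ) = j - 1 - N := by
        push_cast
        ring
      rw [e2]
      ring
    rw [e, show ((N + 1 : ℕ) : ℝ) * (A - B) = N * (A - B) + (A - B) by push_cast; ring]
    exact h2

theorem tanh_sub (p q : ℝ) : Real.tanh p - Real.tanh q =
    Real.sinh (p - q) / (Real.cosh p * Real.cosh q) := by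
  rw [Real.tanh_eq_sinh_div_cosh, Real.tanh_eq_sinh_div_cosh, Real.sinh_sub]
  have h1 := (Real.cosh_pos p).ne'
  have h2 := (Real.cosh_pos q).ne'
  field_simp

/-- the telescoping sum of hyperbolic tangents -/
theorem tele_tanh {η : ℝ} (hη : 0 < η) (x : ℝ) (l : ℕ) :
    HasSum (fun j : ℤ => Real.tanh (x - 2 * j * η + (2 * l + 1) * η) -
      Real.tanh (x - 2 * j * η - (2 * l + 1) * η)) (2 * (2 * l + 1)) := by
  have h1 := tele (F := fun j : ℤ => Real.tanh (x - 2 * j * η - (2 * l + 1) * η)) (A := 1)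
    (B := -1) ?_ ?_ ?_ (2 * l + 1)
  · have e : (fun j : ℤ => Real.tanh (x - 2 * j * η + (2 * l + 1) * η) -
        Real.tanh (x - 2 * j * η - (2 * l + 1) * η)) = fun j : ℤ =>
        Real.tanh (x - 2 * ((j - ((2 * l + 1 : ℕ) : ℤ) : ℤ) : ℝ) * η - (2 * l + 1) * η) -
        Real.tanh (x - 2 * j * η - (2 * l + 1) * η) := by
      funext j
      congr 2
      push_cast
      ring
    rw [e]
    have e2 : (2 * (2 * (l : ℝ) + 1)) = ((2 * l + 1 : ℕ) : ℝ) * (1 - -1) := by
      push_cast
      ring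
    rw [e2]
    exact h1
  · intro i j hij
    apply tanh_mono
    have : (i : ℝ) ≤ (j : ℝ) := by exact_mod_cast hij
    nlinarith
  · have h2 : (fun n : ℕ => Real.tanh (x - 2 * ((n : ℤ) : ℝ) * η - (2 * l + 1) * η)) =
        fun n : ℕ => -Real.tanh (2 * η * (n : ℝ) + ((2 * l + 1) * η - x)) := by
      funext n
      rw [← Real.tanh_neg]
      congr 1
      push_cast
      ring
    rw [h2]
    apply Tendsto.neg
    exact tanh_tendsto.comp (tendsto_atTop_add_const_right _ _
      (tendsto_natCast_atTop_atTop.const_mul_atTop (by positivity)))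
  · have h2 : (fun n : ℕ => Real.tanh (x - 2 * ((-(n : ℤ) : ℤ) : ℝ) * η - (2 * l + 1) * η)) =
        fun n : ℕ => Real.tanh (2 * η * (n : ℝ) + (x - (2 * l + 1) * η)) := by
      funext n
      congr 1
      push_cast
      ring
    rw [h2]
    exact tanh_tendsto.comp (tendsto_atTop_add_const_right _ _
      (tendsto_natCast_atTop_atTop.const_mul_atTop (by positivity)))

/-- C-CF1 -/
theorem cf1 : S_cf1 := by
  intro η x hη
  set f : ℤ → ℝ := fun l => 1 / (2 * Real.cosh (x - (2 * l + 1) * η)) with hf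
  set g : ℤ → ℝ := fun j => 1 / (2 * Real.cosh (x - 2 * j * η)) with hg
  have hfs : Summable f := yf_summable hη x
  have hgs : Summable g := by
    refine (yf_summable hη (x + η)).congr fun j => ?_
    simp only [hg]
    congr 3
    ring
  have hfn : Summable fun l => ‖f l‖ := hfs.norm
  have hgn : Summable fun l => ‖g l‖ := hgs.norm
  have h1 : yf η x * yf η (x + η) = (∑' l, f l) * ∑' j, g j := by
    congr 1
    unfold yf
    apply tsum_congr
    intro j
    simp only [hg]
    congr 3
    ring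
  have hFs : Summable fun z : ℤ × ℤ => f z.1 * g z.2 := summable_mul_of_summable_norm hfn hgn
  -- the change of the indices
  let e : ℤ × ℤ ≃ ℤ × ℤ :=
    { toFun := fun p => (p.2 - p.1 - 1, p.2)
      invFun := fun p => (p.2 - p.1 - 1, p.2)
      left_inv := fun p => by
        apply Prod.ext
        · show p.2 - (p.2 - p.1 - 1) - 1 = p.1
          ring
        · rfl
      right_inv := fun p => by
        apply Prod.ext
        · show p.2 - (p.2 - p.1 - 1) - 1 = p.1
          ring
        · rfl }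
  set G : ℤ × ℤ → ℝ := fun p => 1 / (4 * (Real.cosh (x - 2 * p.2 * η + (2 * p.1 + 1) * η) *
    Real.cosh (x - 2 * p.2 * η))) with hG
  have hGe : ∀ p : ℤ × ℤ, f (e p).1 * g (e p).2 = G p := by
    intro p
    have e1 : x - (2 * (((p.2 - p.1 - 1 : ℤ)) : ℝ) + 1) * η =
        x - 2 * p.2 * η + (2 * p.1 + 1) * η := by
      push_cast
      ring
    show 1 / (2 * Real.cosh (x - (2 * (((p.2 - p.1 - 1 : ℤ)) : ℝ) + 1) * η)) *
      (1 / (2 * Real.cosh (x - 2 * p.2 * η))) = _
    rw [e1, one_div_mul_one_div]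
    simp only [hG]
    congr 1
    ring
  have hGs : Summable G := by
    have := e.summable_iff.mpr hFs
    refine this.congr fun p => ?_
    exact hGe p
  have h2 : (∑' l, f l) * ∑' j, g j = ∑' p, G p := by
    rw [tsum_mul_tsum_of_summable_norm hfn hgn, ← e.tsum_eq]
    exact tsum_congr hGe
  have h3 : ∑' p, G p = ∑' n : ℤ, ∑' j : ℤ, G (n, j) := hGs.tsum_prod
  have hN : Summable fun n : ℤ => ∑' j : ℤ, G (n, j) := hGs.prod
  have hj : ∀ n : ℤ, Summable fun j : ℤ => G (n, j) := fun n => hGs.prod_factor n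
  have h4 := (fold_gen hN).tsum_eq
  have h5 : ∀ l : ℕ, ((∑' j : ℤ, G (-((l : ℤ) + 1), j)) + ∑' j : ℤ, G ((l : ℤ), j)) / 2 =
      1 / 2 * (1 / 2 * ((2 * (l : ℝ) + 1) / Real.sinh ((2 * l + 1) * η))) := by
    intro l
    have hs : 0 < Real.sinh ((2 * l + 1) * η) := Real.sinh_pos_iff.mpr (by positivity)
    rw [← (hj _).tsum_add (hj _)]
    have h6 : ∀ j : ℤ, G (-((l : ℤ) + 1), j) + G ((l : ℤ), j) =
        (1 / (4 * Real.sinh ((2 * l + 1) * η))) * (Real.tanh (x - 2 * j * η + (2 * l + 1) * η) -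
          Real.tanh (x - 2 * j * η - (2 * l + 1) * η)) := by
      intro j
      have e1 : Real.tanh (x - 2 * j * η + (2 * l + 1) * η) -
          Real.tanh (x - 2 * j * η - (2 * l + 1) * η) =
          (Real.tanh (x - 2 * j * η + (2 * l + 1) * η) - Real.tanh (x - 2 * j * η)) +
          (Real.tanh (x - 2 * j * η) - Real.tanh (x - 2 * j * η - (2 * l + 1) * η)) := by ring
      rw [e1, tanh_sub, tanh_sub]
      have e2 : x - 2 * j * η + (2 * l + 1) * η - (x - 2 * j * η) = (2 * l + 1) * η := by ring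
      have e3 : x - 2 * j * η - (x - 2 * j * η - (2 * l + 1) * η) = (2 * l + 1) * η := by ring
      rw [e2, e3]
      simp only [hG]
      have e4 : x - 2 * (j : ℝ) * η + (2 * (((-((l : ℤ) + 1) : ℤ)) : ℝ) + 1) * η =
          x - 2 * j * η - (2 * l + 1) * η := by
        push_cast
        ring
      rw [e4]
      have c1 := (Real.cosh_pos (x - 2 * j * η - (2 * l + 1) * η)).ne'
      have c2 := (Real.cosh_pos (x - 2 * j * η)).ne'
      have c3 := (Real.cosh_pos (x - 2 * j * η + (2 * l + 1) * η)).ne'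
      have c4 := hs.ne'
      push_cast
      field_simp
      ring
    rw [tsum_congr h6, tsum_mul_left, (tele_tanh hη x l).tsum_eq]
    have c4 := hs.ne'
    field_simp
    ring
  rw [h1, h2, h3]
  rw [tsum_congr h5, tsum_mul_left, tsum_mul_left] at h4
  unfold oS
  linarith

end Pool.Agent.Q2.SL
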