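import Mathlib
import Pool.Agent.Q167.SL.StmC
import Pool.Agent.Q2.SL.Base

set_option autoImplicit false

/-!
Project SL2, C-K4: the threshold on the imaginary axis.
-/

open MeasureTheory Filter Topology

namespace Pool.Agent.Q2.SL

open Pool.Agent.Q167.SL

theorem Sl_pos {η : ℝ} (hη : 0 < η) (l : ℕ) : 0 < Sl η l := by
  unfold Sl
  have : 0 < Real.sinh ((2 * l + 1) * η) := Real.sinh_pos_iff.mpr (by positivity)
  positivity

theorem Cl_ge (η : ℝ) (l : ℕ) : 1 ≤ Cl η l := Real.one_le_cosh _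

theorem Cl_sq (η : ℝ) (l : ℕ) : Cl η l ^ 2 = Sl η l + 1 := Real.cosh_sq _

/-- `cosh u / sinh² u` is summable -/
theorem CS_summable {η : ℝ} (hη : 0 < η) : Summable fun l : ℕ => Cl η l / Sl η l := by
  have hs : 0 < 1 - Real.exp (-(2 * η)) := by
    have : Real.exp (-(2 * η)) < 1 := by
      rw [Real.exp_lt_one_iff]
      linarith
    linarith
  refine Summable.of_nonneg_of_le (fun l => div_nonneg (zero_le_one.trans (Cl_ge η l))
    (Sl_pos hη l).le) (fun l => ?_)
    ((summable_nat hη).mul_left (4 / (1 - Real.exp (-(2 * η))) ^ 2))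
  -- the bounds
  set t : ℝ := (2 * l + 1) * η with ht
  have ht0 : η ≤ t := by
    rw [ht]
    have : (0 : ℝ) ≤ l := Nat.cast_nonneg l
    nlinarith
  have h1 : Cl η l ≤ Real.exp t := by
    show Real.cosh t ≤ Real.exp t
    rw [Real.cosh_eq]
    have : Real.exp (-t) ≤ Real.exp t := Real.exp_le_exp.mpr (by linarith)
    linarith
  have h2 : (1 - Real.exp (-(2 * η))) / 2 * Real.exp t ≤ Real.sinh t := by
    rw [Real.sinh_eq]
    have h3 : Real.exp (-t) ≤ Real.exp (-(2 * η)) * Real.exp t := by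
      rw [← Real.exp_add]
      exact Real.exp_le_exp.mpr (by linarith)
    linarith
  have h4 : 0 < (1 - Real.exp (-(2 * η))) / 2 * Real.exp t := by positivity
  have h5 : ((1 - Real.exp (-(2 * η))) / 2 * Real.exp t) ^ 2 ≤ Sl η l := by
    show _ ≤ Real.sinh t ^ 2
    exact pow_le_pow_left₀ h4.le h2 2
  have h6 : Cl η l / Sl η l ≤
      Real.exp t / ((1 - Real.exp (-(2 * η))) / 2 * Real.exp t) ^ 2 := by
    apply div_le_div₀ (Real.exp_pos t).le h1 (by positivity) h5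
  refine h6.trans (le_of_eq ?_)
  have h7 : Real.exp (-t) = (Real.exp t)⁻¹ := Real.exp_neg t
  have h8 := (Real.exp_pos t).ne'
  rw [h7]
  have h9 := hs.ne'
  field_simp
  norm_num

section

variable {η v : ℝ} (hη : 0 < η) (hv : 0 ≤ v)
include hη hv

theorem CSv_summable : Summable fun l : ℕ => Cl η l / (Sl η l + v) := by
  refine Summable.of_nonneg_of_le (fun l => ?_) (fun l => ?_) (CS_summable hη)
  · have := Sl_pos hη l
    have := Cl_ge η l
    positivity
  · have h1 := Sl_pos hη l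
    have h2 := Cl_ge η l
    exact div_le_div_of_nonneg_left (by linarith) h1 (by linarith)

theorem OSv_summable : Summable fun l : ℕ => 1 / (Sl η l + v) := by
  refine Summable.of_nonneg_of_le (fun l => ?_) (fun l => ?_) (CSv_summable hη hv)
  · have := Sl_pos hη l
    positivity
  · have h1 := Sl_pos hη l
    have h2 := Cl_ge η l
    exact div_le_div_of_nonneg_right h2 (by linarith)

theorem A_le_B : ∑' l : ℕ, 1 / (Sl η l + v) ≤ ∑' l : ℕ, Cl η l / (Sl η l + v) := by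
  refine (OSv_summable hη hv).tsum_le_tsum (fun l => ?_) (CSv_summable hη hv)
  have h1 := Sl_pos hη l
  exact div_le_div_of_nonneg_right (Cl_ge η l) (by linarith)

theorem A_pos : 0 < ∑' l : ℕ, 1 / (Sl η l + v) :=
  (OSv_summable hη hv).tsum_pos (fun l => by
    have := Sl_pos hη l
    positivity) 0 (by
    have := Sl_pos hη 0
    positivity)

theorem B_pos : 0 < ∑' l : ℕ, Cl η l / (Sl η l + v) :=
  (A_pos hη hv).trans_le (A_le_B hη hv)

/-- the inequality of Chebyshev type -/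
theorem cheb : (∑' l : ℕ, Cl η l / Sl η l) * ∑' l : ℕ, 1 / (Sl η l + v) ≤
    (∑' l : ℕ, 1 / Sl η l) * ∑' l : ℕ, Cl η l / (Sl η l + v) := by
  have s1 := CS_summable hη
  have s2 := OSv_summable hη hv
  have s3 : Summable fun l : ℕ => 1 / Sl η l := by
    have := OSv_summable hη (le_refl 0)
    simpa only [add_zero] using this
  have s4 := CSv_summable hη hv
  obtain ⟨P, hP⟩ : ∃ P : ℕ × ℕ → ℝ, ∀ z, Cl η z.1 / Sl η z.1 * (1 / (Sl η z.2 + v)) = P z :=
    ⟨_, fun _ => rfl⟩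
  obtain ⟨Q, hQ⟩ : ∃ Q : ℕ × ℕ → ℝ, ∀ z, 1 / Sl η z.1 * (Cl η z.2 / (Sl η z.2 + v)) = Q z :=
    ⟨_, fun _ => rfl⟩
  have hPs : Summable P := (summable_mul_of_summable_norm s1.norm s2.norm).congr hP
  have hQs : Summable Q := (summable_mul_of_summable_norm s3.norm s4.norm).congr hQ
  rw [tsum_mul_tsum_of_summable_norm s1.norm s2.norm, tsum_mul_tsum_of_summable_norm s3.norm s4.norm,
    tsum_congr hP, tsum_congr hQ]
  have hPw : Summable fun z : ℕ × ℕ => P z.swap := (Equiv.prodComm ℕ ℕ).summable_iff.mpr hPs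
  have hQw : Summable fun z : ℕ × ℕ => Q z.swap := (Equiv.prodComm ℕ ℕ).summable_iff.mpr hQs
  have eP : ∑' z : ℕ × ℕ, P z.swap = ∑' z, P z := (Equiv.prodComm ℕ ℕ).tsum_eq P
  have eQ : ∑' z : ℕ × ℕ, Q z.swap = ∑' z, Q z := (Equiv.prodComm ℕ ℕ).tsum_eq Q
  have key : ∑' z : ℕ × ℕ, (P z + P z.swap) ≤ ∑' z : ℕ × ℕ, (Q z + Q z.swap) := by
    refine Summable.tsum_le_tsum (fun z => ?_) (hPs.add hPw) (hQs.add hQw)
    obtain ⟨l, j⟩ := z
    rw [← hP, ← hP, ← hQ, ← hQ]
    simp only [Prod.swap_prod_mk]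
    have a1 := Sl_pos hη l
    have a2 := Sl_pos hη j
    have b1 : 0 < Sl η l + v := by linarith
    have b2 : 0 < Sl η j + v := by linarith
    have c1 := Cl_sq η l
    have c2 := Cl_sq η j
    have d1 := Cl_ge η l
    have d2 := Cl_ge η j
    have e : (1 / Sl η l * (Cl η j / (Sl η j + v)) + 1 / Sl η j * (Cl η l / (Sl η l + v))) -
        (Cl η l / Sl η l * (1 / (Sl η j + v)) + Cl η j / Sl η j * (1 / (Sl η l + v))) =
        (Cl η l - Cl η j) * (v * (Sl η l - Sl η j)) /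
          (Sl η l * Sl η j * (Sl η j + v) * (Sl η l + v)) := by
      field_simp
      ring
    have e2 : (Cl η l - Cl η j) * (v * (Sl η l - Sl η j)) =
        v * (Cl η l - Cl η j) ^ 2 * (Cl η l + Cl η j) := by
      have : Sl η l - Sl η j = Cl η l ^ 2 - Cl η j ^ 2 := by rw [c1, c2]; ring
      rw [this]
      ring
    have e3 : 0 ≤ (Cl η l - Cl η j) * (v * (Sl η l - Sl η j)) /
        (Sl η l * Sl η j * (Sl η j + v) * (Sl η l + v)) := by
      rw [e2]
      have : 0 ≤ Cl η l + Cl η j := by linarith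
      positivity
    rw [← e] at e3
    linarith
  rw [hPs.tsum_add hPw, hQs.tsum_add hQw, eP, eQ] at key
  linarith

omit hη hv in
theorem Gf_real : Gf η (-(v : ℂ)) = ((∑' l : ℕ, 1 / (Sl η l + v) : ℝ) : ℂ) := by
  unfold Gf
  rw [Complex.ofReal_tsum]
  apply tsum_congr
  intro l
  push_cast
  rw [sub_neg_eq_add]

omit hη hv in
theorem Hf_real : Hf η (-(v : ℂ)) = ((∑' l : ℕ, Cl η l / (Sl η l + v) : ℝ) : ℂ) := by
  unfold Hf
  rw [Complex.ofReal_tsum]
  apply tsum_congr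
  intro l
  push_cast
  rw [sub_neg_eq_add]

end

theorem tt_im {η : ℝ} (hη : 0 < η) (φ : ℝ) : tt η (φ * Complex.I) =
    ((Real.cos φ * (∑' l : ℕ, 1 / (Sl η l + Real.sin φ ^ 2)) /
      ∑' l : ℕ, Cl η l / (Sl η l + Real.sin φ ^ 2) : ℝ) : ℂ) := by
  have h1 : Complex.sinh ((φ : ℂ) * Complex.I) ^ 2 = -((Real.sin φ ^ 2 : ℝ) : ℂ) := by
    rw [Complex.sinh_mul_I, mul_pow, Complex.I_sq]
    push_cast
    ring
  unfold tt
  rw [h1, Gf_real, Hf_real, Complex.cosh_mul_I]
  push_cast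
  ring

/-- C-K4 -/
theorem k4 : S_k4 := by
  intro η φ hη hφ
  have hφ2 := abs_le.mp hφ
  have hc : 0 ≤ Real.cos φ := Real.cos_nonneg_of_mem_Icc ⟨by linarith [hφ2.1], hφ2.2⟩
  have hc1 : Real.cos φ ≤ 1 := Real.cos_le_one φ
  have h0 := tt_im hη 0
  simp only [Complex.ofReal_zero, zero_mul, Real.cos_zero, one_mul, Real.sin_zero, ne_eq,
    OfNat.ofNat_ne_zero, not_false_eq_true, zero_pow, add_zero] at h0
  rw [tt_im hη φ, h0, Complex.ofReal_re, Complex.ofReal_re]
  set v : ℝ := Real.sin φ ^ 2 with hv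
  have hv0 : 0 ≤ v := sq_nonneg _
  have a1 := A_pos hη hv0
  have b1 := B_pos hη hv0
  have ab := A_le_B hη hv0
  have b0 := B_pos hη (le_refl 0)
  have ch := cheb hη hv0
  simp only [add_zero] at b0
  refine ⟨?_, ?_, ?_⟩
  · rw [div_le_div_iff₀ b1 b0]
    calc Real.cos φ * (∑' l : ℕ, 1 / (Sl η l + v)) * ∑' l : ℕ, Cl η l / Sl η l
        ≤ 1 * (∑' l : ℕ, 1 / (Sl η l + v)) * ∑' l : ℕ, Cl η l / Sl η l := by
          gcongr
      _ ≤ _ := by
          rw [one_mul, mul_comm]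
          exact ch
  · rw [div_le_iff₀ b1]
    exact mul_le_mul_of_nonneg_left ab hc
  · positivity

end Pool.Agent.Q2.SL
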