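import Mathlib
import Pool.Agent.Q167.SL.StmC
import Pool.Agent.TH41.SC.Fin
import Pool.Agent.Q2.SL.Base
import Pool.Agent.Q2.SL.Kd

set_option autoImplicit false

/-!
Project SL2, C-CF2: integral formula for the exponent.
-/

open MeasureTheory Filter Topology

namespace Pool.Agent.Q2.SL

open Pool.Agent.Q167.SL

/-! ## The change of variables `t = tanh x` -/

theorem image_tanh : Real.tanh '' Set.Ioi 0 = Set.Ioo 0 1 := by
  ext t
  constructor
  · rintro ⟨x, hx, rfl⟩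
    refine ⟨?_, Real.tanh_lt_one x⟩
    rw [Real.tanh_eq_sinh_div_cosh]
    exact div_pos (Real.sinh_pos_iff.mpr hx) (Real.cosh_pos x)
  · intro ht
    refine ⟨Real.artanh t, Real.artanh_pos ht, Real.tanh_artanh ⟨by linarith [ht.1], ht.2⟩⟩

theorem cov_int (g : ℝ → ℝ) : IntegrableOn g (Set.Ioo 0 1) ↔
    IntegrableOn (fun x => g (Real.tanh x) / Real.cosh x ^ 2) (Set.Ioi 0) := by
  rw [← image_tanh, integrableOn_image_iff_integrableOn_abs_deriv_smul measurableSet_Ioi
    (fun x _ => (hasDerivAt_tanh x).hasDerivWithinAt) Real.tanh_injective.injOn]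
  apply integrableOn_congr_fun _ measurableSet_Ioi
  intro x _
  simp only [smul_eq_mul]
  rw [abs_of_pos (by positivity)]
  ring

theorem cov (g : ℝ → ℝ) : ∫ t in Set.Ioo (0 : ℝ) 1, g t =
    ∫ x in Set.Ioi (0 : ℝ), g (Real.tanh x) / Real.cosh x ^ 2 := by
  rw [← image_tanh, integral_image_eq_integral_abs_deriv_smul measurableSet_Ioi
    (fun x _ => (hasDerivAt_tanh x).hasDerivWithinAt) Real.tanh_injective.injOn]
  apply setIntegral_congr_fun measurableSet_Ioi
  intro x _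
  simp only [smul_eq_mul]
  rw [abs_of_pos (by positivity)]
  ring

theorem ioo_eq (g : ℝ → ℝ) : ∫ t in (0 : ℝ)..1, g t = ∫ t in Set.Ioo (0 : ℝ) 1, g t := by
  rw [intervalIntegral.integral_of_le zero_le_one, integral_Ioc_eq_integral_Ioo]

theorem sech2_int : IntegrableOn (fun x : ℝ => 1 / Real.cosh x ^ 2) (Set.Ioi 0) ∧
    ∫ x in Set.Ioi (0 : ℝ), 1 / Real.cosh x ^ 2 = 1 := by
  constructor
  · rw [← cov_int (fun _ => 1)]
    exact integrableOn_const (by simp) (by simp)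
  · rw [← cov (fun _ => 1)]
    simp

theorem log1_int : IntegrableOn (fun t : ℝ => Real.log (1 - t ^ 2)) (Set.Ioo 0 1) ∧
    ∫ t in Set.Ioo (0 : ℝ) 1, Real.log (1 - t ^ 2) = 2 * Real.log 2 - 2 := by
  have i1 : IntervalIntegrable (fun t : ℝ => Real.log (1 - t)) volume 0 1 := by
    have h := (intervalIntegral.intervalIntegrable_log' (a := 1) (b := 0)).comp_sub_left 1
    simpa using h
  have i2 : IntervalIntegrable (fun t : ℝ => Real.log (1 + t)) volume 0 1 := by
    have h := (intervalIntegral.intervalIntegrable_log' (a := 1) (b := 2)).comp_add_left 1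
    norm_num at h
    exact h
  have v1 : ∫ t in (0 : ℝ)..1, Real.log (1 - t) = -1 := by
    rw [intervalIntegral.integral_comp_sub_left (fun x => Real.log x) 1, integral_log]
    simp
  have v2 : ∫ t in (0 : ℝ)..1, Real.log (1 + t) = 2 * Real.log 2 - 1 := by
    rw [intervalIntegral.integral_comp_add_left (fun x => Real.log x) 1, integral_log]
    norm_num
    ring
  have e : Set.EqOn (fun t : ℝ => Real.log (1 - t ^ 2))
      (fun t : ℝ => Real.log (1 - t) + Real.log (1 + t)) (Set.Ioo 0 1) := by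
    intro t ht
    simp only
    rw [← Real.log_mul (by linarith [ht.2]) (by linarith [ht.1])]
    congr 1
    ring
  have j1 : IntegrableOn (fun t : ℝ => Real.log (1 - t)) (Set.Ioo 0 1) :=
    (intervalIntegrable_iff_integrableOn_Ioo_of_le zero_le_one).mp i1
  have j2 : IntegrableOn (fun t : ℝ => Real.log (1 + t)) (Set.Ioo 0 1) :=
    (intervalIntegrable_iff_integrableOn_Ioo_of_le zero_le_one).mp i2
  constructor
  · exact (j1.add j2).congr_fun (fun t ht => (e ht).symm) measurableSet_Ioo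
  · rw [setIntegral_congr_fun measurableSet_Ioo e, integral_add j1 j2, ← ioo_eq, ← ioo_eq, v1, v2]
    ring

theorem logcosh_eq (x : ℝ) : -(1 / 2) * Real.log (1 - Real.tanh x ^ 2) = Real.log (Real.cosh x) := by
  have h1 : 1 - Real.tanh x ^ 2 = (Real.cosh x ^ 2)⁻¹ := by
    rw [Real.tanh_eq_sinh_div_cosh, div_pow]
    have h2 := Real.cosh_sq x
    have h3 := (Real.cosh_pos x).ne'
    field_simp
    linarith
  rw [h1, Real.log_inv, Real.log_pow]
  push_cast
  ring

theorem logcosh_int : IntegrableOn (fun x : ℝ => Real.log (Real.cosh x) / Real.cosh x ^ 2)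
    (Set.Ioi 0) ∧
    ∫ x in Set.Ioi (0 : ℝ), Real.log (Real.cosh x) / Real.cosh x ^ 2 = 1 - Real.log 2 := by
  have h := log1_int
  constructor
  · have h1 := (cov_int fun t => -(1 / 2) * Real.log (1 - t ^ 2)).mp (h.1.const_mul _)
    simpa only [logcosh_eq] using h1
  · have h1 := cov fun t => -(1 / 2) * Real.log (1 - t ^ 2)
    simp only [logcosh_eq] at h1
    rw [← h1, integral_const_mul, h.2]
    ring

theorem logy_int {η : ℝ} (hη : 0 < η) :
    IntegrableOn (fun x => Real.log (yf η x) / Real.cosh x ^ 2) (Set.Ioi 0) := by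
  obtain ⟨M, hM⟩ := yf_bound hη
  have hc : Continuous fun x => Real.log (yf η x) :=
    (yf_continuous hη).log fun x => (yf_pos hη x).ne'
  have h1 := sech2_int.1.bdd_mul (f := fun x => Real.log (yf η x)) (c := M)
    hc.aestronglyMeasurable (Eventually.of_forall fun x => by
      rw [Real.norm_eq_abs]
      exact hM x)
  refine h1.congr (Eventually.of_forall fun x => ?_)
  simp only
  ring

/-! ## The function `yf` as a sum over the natural numbers -/

theorem cosh_mul_cosh (x u : ℝ) : Real.cosh (x + u) * Real.cosh (x - u) =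
    Real.sinh u ^ 2 + Real.cosh x ^ 2 := by
  rw [Real.cosh_add, Real.cosh_sub]
  have h1 := Real.cosh_sq x
  have h2 := Real.cosh_sq u
  linear_combination Real.cosh x ^ 2 * h2 + Real.sinh u ^ 2 * h1

theorem yf_nat {η : ℝ} (hη : 0 < η) (x : ℝ) :
    HasSum (fun l : ℕ => Real.cosh x * (Cl η l / (Sl η l + Real.cosh x ^ 2))) (yf η x) := by
  have h := fold_gen (sech_summable hη x)
  rw [← yf_eq] at h
  have e : (fun l : ℕ => Real.cosh x * (Cl η l / (Sl η l + Real.cosh x ^ 2))) =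
      fun l : ℕ => (1 / Real.cosh (x - (2 * ((-((l : ℤ) + 1) : ℤ) : ℝ) + 1) * η) +
        1 / Real.cosh (x - (2 * (((l : ℕ) : ℤ) : ℝ) + 1) * η)) / 2 := by
    funext l
    have e1 : x - (2 * ((-((l : ℤ) + 1) : ℤ) : ℝ) + 1) * η = x + (2 * l + 1) * η := by
      push_cast
      ring
    rw [e1]
    push_cast
    have h1 : Real.cosh (x + (2 * l + 1) * η) * Real.cosh (x - (2 * l + 1) * η) =
        Sl η l + Real.cosh x ^ 2 := cosh_mul_cosh x ((2 * l + 1) * η)
    have h2 : Real.cosh (x + (2 * l + 1) * η) + Real.cosh (x - (2 * l + 1) * η) =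
        2 * (Real.cosh x * Cl η l) := by
      unfold Cl
      rw [Real.cosh_add, Real.cosh_sub]
      ring
    have h3 := Real.cosh_pos (x + (2 * l + 1) * η)
    have h4 := Real.cosh_pos (x - (2 * l + 1) * η)
    rw [← h1, div_add_div _ _ h3.ne' h4.ne', div_div, one_mul, mul_one,
      add_comm (Real.cosh (x - (2 * l + 1) * η)), h2]
    field_simp
  rw [e]
  exact h

/-! ## The limit of the finite systems -/

section

open Pool.Agent.TH41.SC Pool.Agent.W48.KS

/-- the limit mean -/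
noncomputable def mm (η t : ℝ) : ℝ :=
  (∑' k, a (Real.exp (-η) ^ 2) k * ((1 - t ^ 2) / (u (Real.exp (-η) ^ 2) (2 * k + 1) - t ^ 2))) /
    (∑' k, a (Real.exp (-η) ^ 2) k) / (1 - t ^ 2)

theorem a_hyp {η : ℝ} (hη : 0 < η) (k : ℕ) :
    a (Real.exp (-η) ^ 2) k = Real.exp η / 2 * (Cl η k / Sl η k) := by
  have hs : 0 < Real.sinh ((2 * k + 1) * η) := Real.sinh_pos_iff.mpr (by positivity)
  have h1 : (Real.exp (-η) ^ 2) ^ (2 * k + 1) = Real.exp (-((2 * k + 1) * η)) ^ 2 := by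
    rw [← pow_mul, ← Real.exp_nat_mul, ← Real.exp_nat_mul]
    congr 1
    push_cast
    ring
  have h2 : (Real.exp (-η) ^ 2) ^ k = Real.exp η * Real.exp (-((2 * k + 1) * η)) := by
    rw [← pow_mul, ← Real.exp_nat_mul, ← Real.exp_add]
    congr 1
    push_cast
    ring
  set w : ℝ := (2 * k + 1) * η with hw
  have hw0 : 0 < w := by rw [hw]; positivity
  have h3 : Cl η k = (Real.exp w + Real.exp (-w)) / 2 := Real.cosh_eq w
  have h4 : Sl η k = ((Real.exp w - Real.exp (-w)) / 2) ^ 2 := by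
    show Real.sinh w ^ 2 = _
    rw [Real.sinh_eq]
  have h5 : Real.exp w * Real.exp (-w) = 1 := by
    rw [← Real.exp_add, add_neg_cancel, Real.exp_zero]
  have h6 : Real.exp w = (Real.exp (-w))⁻¹ := by
    rw [Real.exp_neg, inv_inv]
  have h7 := Real.exp_pos (-w)
  have h8 : Real.exp (-w) < 1 := by
    rw [Real.exp_lt_one_iff]
    linarith
  have h9 : 0 < 1 - Real.exp (-w) ^ 2 := by nlinarith
  unfold a
  rw [h1, h2, h3, h4, h6]
  have h10 : (Real.exp (-w))⁻¹ - Real.exp (-w) = (1 - Real.exp (-w) ^ 2) / Real.exp (-w) := by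
    field_simp
  rw [h10]
  field_simp

theorem u_hyp {η : ℝ} (hη : 0 < η) (k : ℕ) :
    u (Real.exp (-η) ^ 2) (2 * k + 1) = (Sl η k + 1) / Sl η k := by
  have hs : 0 < Real.sinh ((2 * k + 1) * η) := Real.sinh_pos_iff.mpr (by positivity)
  have h1 : (Real.exp (-η) ^ 2) ^ (2 * k + 1) = Real.exp (-((2 * k + 1) * η)) ^ 2 := by
    rw [← pow_mul, ← Real.exp_nat_mul, ← Real.exp_nat_mul]
    congr 1
    push_cast
    ring
  rw [← Cl_sq]
  set w : ℝ := (2 * k + 1) * η with hw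
  have hw0 : 0 < w := by rw [hw]; positivity
  have h3 : Cl η k = (Real.exp w + Real.exp (-w)) / 2 := Real.cosh_eq w
  have h4 : Sl η k = ((Real.exp w - Real.exp (-w)) / 2) ^ 2 := by
    show Real.sinh w ^ 2 = _
    rw [Real.sinh_eq]
  have h6 : Real.exp w = (Real.exp (-w))⁻¹ := by
    rw [Real.exp_neg, inv_inv]
  have h7 := Real.exp_pos (-w)
  have h8 : Real.exp (-w) < 1 := by
    rw [Real.exp_lt_one_iff]
    linarith
  have h9 : 0 < 1 - Real.exp (-w) ^ 2 := by nlinarith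
  unfold u
  rw [h1, h3, h4, h6]
  have h10 : (Real.exp (-w))⁻¹ - Real.exp (-w) = (1 - Real.exp (-w) ^ 2) / Real.exp (-w) := by
    field_simp
  have h11 : (Real.exp (-w))⁻¹ + Real.exp (-w) = (1 + Real.exp (-w) ^ 2) / Real.exp (-w) := by
    field_simp
  rw [h10, h11]
  field_simp

theorem oS_eq {η : ℝ} (hη : 0 < η) : oS η = 2 * Real.exp (-η) * ∑' k, a (Real.exp (-η) ^ 2) k :=
  oddSum_eq hη

theorem oS_pos {η : ℝ} (hη : 0 < η) : 0 < oS η := by
  rw [oS_eq hη]
  have := a_tsum_pos (sq_s hη).1 (sq_s hη).2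
  positivity

theorem oS_CS {η : ℝ} (hη : 0 < η) : oS η = ∑' l : ℕ, Cl η l / Sl η l := by
  rw [oS_eq hη, tsum_congr (a_hyp hη), tsum_mul_left, Real.exp_neg]
  have := (Real.exp_pos η).ne'
  field_simp

theorem mm_tanh {η : ℝ} (hη : 0 < η) (x : ℝ) :
    mm η (Real.tanh x) = Real.cosh x * yf η x / oS η := by
  have hc := Real.cosh_pos x
  have h1 : 1 - Real.tanh x ^ 2 = 1 / Real.cosh x ^ 2 := by
    rw [Real.tanh_eq_sinh_div_cosh, div_pow]
    have h2 := Real.cosh_sq x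
    field_simp
    linarith
  have h2 : ∀ k : ℕ, a (Real.exp (-η) ^ 2) k * ((1 - Real.tanh x ^ 2) /
      (u (Real.exp (-η) ^ 2) (2 * k + 1) - Real.tanh x ^ 2)) =
      Real.exp η / 2 * (Cl η k / (Sl η k + Real.cosh x ^ 2)) := by
    intro k
    have hS := Sl_pos hη k
    have h3 : u (Real.exp (-η) ^ 2) (2 * k + 1) - Real.tanh x ^ 2 =
        (Sl η k + Real.cosh x ^ 2) / (Sl η k * Real.cosh x ^ 2) := by
      have h4 : Real.tanh x ^ 2 = 1 - 1 / Real.cosh x ^ 2 := by linarith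
      rw [u_hyp hη, h4]
      field_simp
      ring
    rw [a_hyp hη, h1, h3]
    have h5 : Sl η k + Real.cosh x ^ 2 ≠ 0 := by positivity
    field_simp
  have h3 : ∑' k : ℕ, Cl η k / (Sl η k + Real.cosh x ^ 2) = yf η x / Real.cosh x := by
    rw [← (yf_nat hη x).tsum_eq, tsum_mul_left]
    field_simp
  have h4 : ∑' k, a (Real.exp (-η) ^ 2) k = Real.exp η / 2 * oS η := by
    rw [oS_CS hη, ← tsum_mul_left]
    exact tsum_congr (a_hyp hη)
  unfold mm
  rw [tsum_congr h2, tsum_mul_left, h3, h4, h1]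
  have h5 := (oS_pos hη).ne'
  have h6 := (Real.exp_pos η).ne'
  field_simp

/-- the finite means -/
noncomputable def mf (η : ℝ) (M : ℕ) (t : ℝ) : ℝ :=
  ∑ k ∈ Finset.range (M + 1), W (Real.exp (-η) ^ 2) M k /
    (u (Real.exp (-η) ^ 2) (2 * k + 1) - t ^ 2)

theorem mf_eq {η : ℝ} (hη : 0 < η) (M : ℕ) {t : ℝ} (ht : t ∈ Set.Ioo (0 : ℝ) 1) :
    mf η M t = (∑ k ∈ Finset.range (M + 1), W (Real.exp (-η) ^ 2) M k *
      ((1 - t ^ 2) / (u (Real.exp (-η) ^ 2) (2 * k + 1) - t ^ 2))) / (1 - t ^ 2) := by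
  have h0 : 0 < 1 - t ^ 2 := by nlinarith [ht.1, ht.2]
  unfold mf
  rw [Finset.sum_div]
  apply Finset.sum_congr rfl
  intro k _
  have h1 := one_lt_u (sq_s hη).1 (sq_s hη).2 (2 * k + 1) (by omega)
  have h2 : 0 < u (Real.exp (-η) ^ 2) (2 * k + 1) - t ^ 2 := by linarith
  field_simp

theorem fk_bound {η : ℝ} (hη : 0 < η) {t : ℝ} (ht : t ∈ Set.Ioo (0 : ℝ) 1) (k : ℕ) :
    0 < (1 - t ^ 2) / (u (Real.exp (-η) ^ 2) (2 * k + 1) - t ^ 2) ∧
    (1 - t ^ 2) / (u (Real.exp (-η) ^ 2) (2 * k + 1) - t ^ 2) ≤ 1 := by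
  have h0 : 0 < 1 - t ^ 2 := by nlinarith [ht.1, ht.2]
  have h1 := one_lt_u (sq_s hη).1 (sq_s hη).2 (2 * k + 1) (by omega)
  have h2 : 0 < u (Real.exp (-η) ^ 2) (2 * k + 1) - t ^ 2 := by linarith
  refine ⟨div_pos h0 h2, ?_⟩
  rw [div_le_one h2]
  linarith

theorem mf_bounds {η : ℝ} (hη : 0 < η) (M : ℕ) {t : ℝ} (ht : t ∈ Set.Ioo (0 : ℝ) 1) :
    1 / u (Real.exp (-η) ^ 2) 1 ≤ mf η M t ∧ mf η M t ≤ 1 / (1 - t ^ 2) := by
  obtain ⟨q0, q1⟩ := sq_s hη
  have h0 : 0 < 1 - t ^ 2 := by nlinarith [ht.1, ht.2]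
  have hW := W_sum q0 q1 M
  constructor
  · have e : 1 / u (Real.exp (-η) ^ 2) 1 = ∑ k ∈ Finset.range (M + 1),
        W (Real.exp (-η) ^ 2) M k / u (Real.exp (-η) ^ 2) 1 := by
      rw [← Finset.sum_div, hW]
    rw [e]
    apply Finset.sum_le_sum
    intro k hk
    have h1 := one_lt_u q0 q1 (2 * k + 1) (by omega)
    have h2 : 0 < u (Real.exp (-η) ^ 2) (2 * k + 1) - t ^ 2 := by linarith
    have hp := W_pos q0 q1 M k (Nat.lt_succ_iff.1 (Finset.mem_range.1 hk))
    apply div_le_div_of_nonneg_left hp.le h2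
    have h3 := u_sub q0 q1 (2 * k + 1) 1 (by omega) (by omega)
    have h4 : 0 < 1 - (Real.exp (-η) ^ 2) ^ (2 * k + 1 + 1) := one_sub_pos q0 q1 _ (by omega)
    have h5 : (Real.exp (-η) ^ 2) ^ (2 * k + 1) ≤ (Real.exp (-η) ^ 2) ^ 1 :=
      pow_le_pow_of_le_one q0.le q1.le (by omega)
    have h6 : u (Real.exp (-η) ^ 2) (2 * k + 1) - u (Real.exp (-η) ^ 2) 1 ≤ 0 := by
      rw [h3]
      apply div_nonpos_of_nonpos_of_nonneg
      · nlinarith
      · positivity
    nlinarith [sq_nonneg t]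
  · have e : 1 / (1 - t ^ 2) = ∑ k ∈ Finset.range (M + 1),
        W (Real.exp (-η) ^ 2) M k / (1 - t ^ 2) := by
      rw [← Finset.sum_div, hW]
    rw [e]
    apply Finset.sum_le_sum
    intro k hk
    have h1 := one_lt_u q0 q1 (2 * k + 1) (by omega)
    have hp := W_pos q0 q1 M k (Nat.lt_succ_iff.1 (Finset.mem_range.1 hk))
    apply div_le_div_of_nonneg_left hp.le h0
    linarith

theorem mf_tendsto {η : ℝ} (hη : 0 < η) {t : ℝ} (ht : t ∈ Set.Ioo (0 : ℝ) 1) :
    Tendsto (fun M => Real.log (mf η M t)) atTop (𝓝 (Real.log (mm η t))) := by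
  obtain ⟨q0, q1⟩ := sq_s hη
  have h0 : 0 < 1 - t ^ 2 := by nlinarith [ht.1, ht.2]
  have h1 := mean_lim q0 q1 (fun k => (1 - t ^ 2) / (u (Real.exp (-η) ^ 2) (2 * k + 1) - t ^ 2))
    (fun k => by
      have := fk_bound hη ht k
      rw [abs_of_pos this.1]
      exact this.2)
  have h2 : Tendsto (fun M => mf η M t) atTop (𝓝 (mm η t)) := by
    have h3 := h1.div_const (1 - t ^ 2)
    refine h3.congr fun M => ?_
    rw [mf_eq hη M ht]
  have hm : 0 < mm η t := by
    refine lt_of_lt_of_le ?_ (ge_of_tendsto' h2 fun M => (mf_bounds hη M ht).1)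
    have := one_lt_u q0 q1 1 (by omega)
    positivity
  exact h2.log hm.ne'

theorem int_tendsto {η : ℝ} (hη : 0 < η) :
    Tendsto (fun M => ∫ t in Set.Ioo (0 : ℝ) 1, Real.log (mf η M t)) atTop
      (𝓝 (∫ t in Set.Ioo (0 : ℝ) 1, Real.log (mm η t))) := by
  obtain ⟨q0, q1⟩ := sq_s hη
  refine tendsto_integral_of_dominated_convergence
    (fun t => Real.log (u (Real.exp (-η) ^ 2) 1) + -Real.log (1 - t ^ 2)) ?_ ?_ ?_ ?_
  · intro M
    apply Measurable.aestronglyMeasurable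
    apply Measurable.log
    unfold mf
    fun_prop
  · exact (integrableOn_const (by simp) (by simp)).add log1_int.1.neg
  · intro M
    rw [ae_restrict_iff' measurableSet_Ioo]
    refine Eventually.of_forall fun t ht => ?_
    have h0 : 0 < 1 - t ^ 2 := by nlinarith [ht.1, ht.2]
    have h00 : 1 - t ^ 2 ≤ 1 := by nlinarith [sq_nonneg t]
    obtain ⟨b1, b2⟩ := mf_bounds hη M ht
    have hu := one_lt_u q0 q1 1 (by omega)
    have hp : 0 < 1 / u (Real.exp (-η) ^ 2) 1 := by positivity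
    have l1 := Real.log_le_log hp b1
    have l2 := Real.log_le_log (hp.trans_le b1) b2
    rw [one_div, Real.log_inv] at l1
    rw [one_div, Real.log_inv] at l2
    have l3 : 0 ≤ Real.log (u (Real.exp (-η) ^ 2) 1) := Real.log_nonneg hu.le
    have l4 : Real.log (1 - t ^ 2) ≤ 0 := Real.log_nonpos h0.le h00
    rw [Real.norm_eq_abs, abs_le]
    constructor <;> linarith
  · rw [ae_restrict_iff' measurableSet_Ioo]
    exact Eventually.of_forall fun t ht => mf_tendsto hη ht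

/-- the exponent as an integral over `(0, 1)` -/
theorem Ph_int {η : ℝ} (hη : 0 < η) :
    Ph η = 1 - Real.log 2 - 1 / 2 * ∫ t in Set.Ioo (0 : ℝ) 1, Real.log (mm η t) := by
  obtain ⟨q0, q1⟩ := sq_s hη
  have h1 : Ph η = Φ (Real.exp (-η) ^ 2) := Ψ_eq hη
  have h2 := alt_lim q0 q1
  have h3 : Tendsto (fun M => 1 - Real.log 2 - 1 / 2 * ∫ t in Set.Ioo (0 : ℝ) 1,
      Real.log (mf η M t)) atTop
      (𝓝 (1 - Real.log 2 - 1 / 2 * ∫ t in Set.Ioo (0 : ℝ) 1, Real.log (mm η t))) :=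
    (((int_tendsto hη).const_mul _).const_sub _)
  rw [h1]
  refine tendsto_nhds_unique (h2.congr fun M => ?_) h3
  rw [← mx_eq q0 q1 M]
  unfold mx
  rw [ioo_eq]
  congr 2
  apply setIntegral_congr_fun measurableSet_Ioo
  intro t _
  simp only
  congr 1
  unfold mf
  rw [← Fin.sum_univ_eq_sum_range (fun k => W (Real.exp (-η) ^ 2) M k /
    (u (Real.exp (-η) ^ 2) (2 * k + 1) - t ^ 2))]
  refine Finset.sum_congr rfl fun k _ => ?_
  rw [cc_u q0 q1 _ (by omega)]

end

/-- C-CF2 -/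
theorem cf2 : S_cf2 := by
  intro η hη
  have hy := logy_int hη
  refine ⟨hy, ?_⟩
  rw [Ph_int hη, cov]
  have h1 : ∀ x : ℝ, Real.log (mm η (Real.tanh x)) / Real.cosh x ^ 2 =
      (Real.log (Real.cosh x) / Real.cosh x ^ 2 + Real.log (yf η x) / Real.cosh x ^ 2) -
        Real.log (oS η) * (1 / Real.cosh x ^ 2) := by
    intro x
    rw [mm_tanh hη, Real.log_div (by
      have := yf_pos hη x
      positivity) (oS_pos hη).ne', Real.log_mul (Real.cosh_pos x).ne' (yf_pos hη x).ne']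
    ring
  simp only [h1]
  have i1 := logcosh_int.1
  have i2 := sech2_int.1.const_mul (Real.log (oS η))
  have e1 : ∫ x in Set.Ioi (0 : ℝ), ((Real.log (Real.cosh x) / Real.cosh x ^ 2 +
      Real.log (yf η x) / Real.cosh x ^ 2) - Real.log (oS η) * (1 / Real.cosh x ^ 2)) =
      (∫ x in Set.Ioi (0 : ℝ), (Real.log (Real.cosh x) / Real.cosh x ^ 2 +
        Real.log (yf η x) / Real.cosh x ^ 2)) -
        ∫ x in Set.Ioi (0 : ℝ), Real.log (oS η) * (1 / Real.cosh x ^ 2) :=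
    integral_sub (i1.add hy) i2
  have e2 : ∫ x in Set.Ioi (0 : ℝ), (Real.log (Real.cosh x) / Real.cosh x ^ 2 +
        Real.log (yf η x) / Real.cosh x ^ 2) =
      (∫ x in Set.Ioi (0 : ℝ), Real.log (Real.cosh x) / Real.cosh x ^ 2) +
        ∫ x in Set.Ioi (0 : ℝ), Real.log (yf η x) / Real.cosh x ^ 2 := integral_add i1 hy
  rw [e1, e2, logcosh_int.2, integral_const_mul, sech2_int.2]
  ring

end Pool.Agent.Q2.SL
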