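import Mathlib
import Pool.Agent.Q167.SL.StmC
import Pool.Agent.Q2.SL.Base
import Pool.Agent.Q2.SL.CFb

set_option autoImplicit false

/-!
Project SL2, C-CF3: the value of the dual exponent, real form.
-/

open MeasureTheory Filter Topology

namespace Pool.Agent.Q2.SL

open Pool.Agent.Q167.SL

theorem ly_continuous {η : ℝ} (hη : 0 < η) : Continuous fun x => Real.log (yf η x) :=
  (yf_continuous hη).log fun x => (yf_pos hη x).ne'

theorem ly_hasDerivAt {η : ℝ} (hη : 0 < η) (x : ℝ) :
    HasDerivAt (fun x => Real.log (yf η x)) (deriv (yf η) x / yf η x) x := by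
  have h := (yf_hasDerivAt hη x).differentiableAt.hasDerivAt
  exact h.log (yf_pos hη x).ne'

/-- the sum of the squares, with the other sign -/
theorem dz_neg (η x : ℝ) : ∑' l : ℤ, 1 / Real.cosh (x + (2 * l + 1) * η) ^ 2 =
    ∑' l : ℤ, 1 / Real.cosh (x - (2 * l + 1) * η) ^ 2 := by
  rw [← ((Equiv.neg ℤ).trans (Equiv.subRight (1 : ℤ))).tsum_eq
    (fun l : ℤ => 1 / Real.cosh (x + (2 * l + 1) * η) ^ 2)]
  apply tsum_congr
  intro l
  congr 3
  simp only [Equiv.trans_apply, Equiv.neg_apply, Equiv.subRight_apply]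
  push_cast
  ring

theorem dz_even (η x : ℝ) : dz η (-x) = dz η x := by
  unfold dz
  rw [← dz_neg]
  congr 1
  apply tsum_congr
  intro l
  rw [← Real.cosh_neg]
  congr 3
  ring

/-- even integrands -/
theorem even_int (f : ℝ → ℝ) (hf : Continuous f) (he : ∀ x, f (-x) = f x) (η : ℝ) :
    ∫ x in (-η)..η, f x = 2 * ∫ x in (0 : ℝ)..η, f x := by
  rw [← intervalIntegral.integral_add_adjacent_intervals (b := 0) (hf.intervalIntegrable _ _)
    (hf.intervalIntegrable _ _)]
  have h : ∫ x in (-η)..0, f x = ∫ x in (0 : ℝ)..η, f x := by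
    have h1 := intervalIntegral.integral_comp_neg (a := 0) (b := η) f
    rw [neg_zero] at h1
    rw [← h1]
    simp only [he]
  rw [h]
  ring

/-- integrability on the line -/
theorem gint {η : ℝ} (hη : 0 < η) :
    Integrable fun X : ℝ => 1 / Real.cosh X ^ 2 * Real.log (yf η (X + η)) := by
  have h0 : Integrable fun X : ℝ => 1 / Real.cosh X ^ 2 := by
    have h1 := sech2_int.1
    have h2 : IntegrableOn (fun X : ℝ => 1 / Real.cosh X ^ 2) (Set.Iic 0) := by
      rw [← Measure.map_neg_eq_self (volume : Measure ℝ)]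
      let m : MeasurableEmbedding fun x : ℝ => -x := (Homeomorph.neg ℝ).measurableEmbedding
      rw [m.integrableOn_map_iff]
      have e : ((fun X : ℝ => 1 / Real.cosh X ^ 2) ∘ fun x : ℝ => -x) =
          fun X : ℝ => 1 / Real.cosh X ^ 2 := by
        funext x
        simp only [Function.comp_apply, Real.cosh_neg]
      rw [e, Set.neg_preimage, Set.neg_Iic, neg_zero]
      exact Iff.mpr integrableOn_Ici_iff_integrableOn_Ioi h1
    rw [← integrableOn_univ, ← Set.Iic_union_Ioi (a := (0 : ℝ))]
    exact h2.union h1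
  obtain ⟨M, hM⟩ := yf_bound hη
  exact h0.mul_bdd (c := M) ((ly_continuous hη).comp (by fun_prop)).aestronglyMeasurable
    (Eventually.of_forall fun x => by
      rw [Real.norm_eq_abs]
      exact hM _)

/-- unfolding -/
theorem unfolding {η : ℝ} (hη : 0 < η) :
    ∫ X : ℝ, 1 / Real.cosh X ^ 2 * Real.log (yf η (X + η)) =
      ∫ x in (-η)..η, (2 * dz η x) * Real.log (yf η x) := by
  set g : ℝ → ℝ := fun X => 1 / Real.cosh X ^ 2 * Real.log (yf η (X + η)) with hg
  have hp : 0 < 2 * η := by linarith
  -- the tiling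
  have h1 : HasSum (fun n : ℤ => ∫ x in Set.Ioc ((0 : ℝ) + n • (2 * η)) (0 + (n + 1) • (2 * η)), g x)
      (∫ x, g x) := by
    have h := hasSum_integral_iUnion (μ := volume) (f := g)
      (s := fun n : ℤ => Set.Ioc ((0 : ℝ) + n • (2 * η)) (0 + (n + 1) • (2 * η)))
      (fun n => measurableSet_Ioc) (Set.pairwise_disjoint_Ioc_add_zsmul (0 : ℝ) (2 * η))
      (by
        rw [iUnion_Ioc_add_zsmul hp]
        exact (gint hη).integrableOn)
    rw [iUnion_Ioc_add_zsmul hp, setIntegral_univ] at h
    exact h
  have h2 : ∀ n : ℤ, ∫ x in Set.Ioc ((0 : ℝ) + n • (2 * η)) (0 + (n + 1) • (2 * η)), g x =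
      ∫ x in (-η)..η, 1 / Real.cosh (x + (2 * n + 1) * η) ^ 2 * Real.log (yf η x) := by
    intro n
    rw [← intervalIntegral.integral_of_le (by
      rw [add_smul, one_smul]
      linarith)]
    have e1 : (0 : ℝ) + n • (2 * η) = -η + (2 * n + 1) * η := by
      rw [zsmul_eq_mul]
      ring
    have e2 : (0 : ℝ) + (n + 1) • (2 * η) = η + (2 * n + 1) * η := by
      rw [zsmul_eq_mul]
      push_cast
      ring
    rw [e1, e2, ← intervalIntegral.integral_comp_add_right]
    apply intervalIntegral.integral_congr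
    intro x _
    simp only [hg]
    congr 2
    have hper : Function.Periodic (yf η) (2 * η) := yf_periodic η
    have e3 : x + (2 * n + 1) * η + η = x + ((n + 1 : ℤ) : ℝ) * (2 * η) := by
      push_cast
      ring
    rw [e3]
    exact hper.int_mul (n + 1) x
  obtain ⟨M, hM⟩ := yf_bound hη
  have hM0 : 0 ≤ M := (abs_nonneg _).trans (hM 0)
  have h3 : HasSum (fun n : ℤ => ∫ x in (-η)..η, 1 / Real.cosh (x + (2 * n + 1) * η) ^ 2 *
      Real.log (yf η x)) (∫ x in (-η)..η, (2 * dz η x) * Real.log (yf η x)) := by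
    refine intervalIntegral.hasSum_integral_of_dominated_convergence
      (fun (n : ℤ) (_ : ℝ) => 2 * Real.exp η * Real.exp (-(|2 * (n : ℝ) + 1| * η)) * M) ?_ ?_ ?_ ?_ ?_
    · intro n
      apply Continuous.aestronglyMeasurable
      apply Continuous.mul _ (ly_continuous hη)
      apply Continuous.div continuous_const
      · exact (Real.continuous_cosh.comp (by fun_prop)).pow 2
      · intro y
        positivity
    · intro n
      refine Eventually.of_forall fun x hx => ?_
      rw [Set.uIoc_of_le (by linarith)] at hx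
      have hx2 : |-x| ≤ η := by
        rw [abs_neg, abs_le]
        exact ⟨hx.1.le, hx.2⟩
      have h4 := (sech2_le _).trans (sech_bound hη hx2 n)
      rw [show -x - (2 * (n : ℝ) + 1) * η = -(x + (2 * n + 1) * η) by ring, Real.cosh_neg] at h4
      rw [norm_mul, Real.norm_eq_abs, Real.norm_eq_abs, abs_of_pos (by positivity)]
      exact mul_le_mul h4 (hM x) (abs_nonneg _) (by positivity)
    · exact Eventually.of_forall fun x _ => ((summable_int hη).mul_left _).mul_right _
    · exact intervalIntegrable_const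
    · refine Eventually.of_forall fun x _ => ?_
      apply HasSum.mul_right
      have h5 : 2 * dz η x = ∑' l : ℤ, 1 / Real.cosh (x + (2 * l + 1) * η) ^ 2 := by
        rw [dz_neg]
        unfold dz
        ring
      rw [h5]
      apply Summable.hasSum
      have h6 := sech2_summable hη (-x)
      refine h6.congr fun l => ?_
      rw [show -x - (2 * (l : ℝ) + 1) * η = -(x + (2 * l + 1) * η) by ring, Real.cosh_neg]
  simp only [h2] at h1
  exact h1.unique h3

/-- the value of the integral of the derivative -/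
theorem dz_value (h1 : S_cf1) {η : ℝ} (hη : 0 < η) :
    ∫ x in (0 : ℝ)..η, dz η x * Real.log (yf η x) = 1 / 2 * Real.log (oS η / 2) -
      1 / 2 * ∫ x in Set.Ioi (0 : ℝ), Real.log (yf η x) / Real.cosh x ^ 2 := by
  have hu := unfolding hη
  have hoS := oS_pos hη
  have e1 : (fun X : ℝ => 1 / Real.cosh X ^ 2 * Real.log (yf η (X + η))) =
      fun X : ℝ => (fun x : ℝ => (Real.log (oS η / 2) - Real.log (yf η x)) / Real.cosh x ^ 2) |X| := by
    funext X
    have h2 := h1 η X hη
    have h3 := yf_pos hη X
    have h4 := yf_pos hη (X + η)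
    have h5 : Real.log (yf η X) + Real.log (yf η (X + η)) = Real.log (oS η / 2) := by
      rw [← Real.log_mul h3.ne' h4.ne', h2]
    have h6 : yf η |X| = yf η X := by
      rcases abs_choice X with h | h
      · rw [h]
      · rw [h, yf_even]
    simp only
    rw [h6, Real.cosh_abs, ← h5]
    ring
  rw [e1] at hu
  have hab := integral_comp_abs
    (f := fun x : ℝ => (Real.log (oS η / 2) - Real.log (yf η x)) / Real.cosh x ^ 2)
  replace hu := hab.symm.trans hu
  have e2 : ∫ x in Set.Ioi (0 : ℝ), (Real.log (oS η / 2) - Real.log (yf η x)) / Real.cosh x ^ 2 =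
      Real.log (oS η / 2) - ∫ x in Set.Ioi (0 : ℝ), Real.log (yf η x) / Real.cosh x ^ 2 := by
    have e3 : (fun x : ℝ => (Real.log (oS η / 2) - Real.log (yf η x)) / Real.cosh x ^ 2) =
        fun x : ℝ => Real.log (oS η / 2) * (1 / Real.cosh x ^ 2) -
          Real.log (yf η x) / Real.cosh x ^ 2 := by
      funext x
      ring
    rw [e3, integral_sub (sech2_int.1.const_mul _) (logy_int hη), integral_const_mul, sech2_int.2,
      mul_one]
  rw [e2] at hu
  have hc : Continuous fun x => (2 * dz η x) * Real.log (yf η x) :=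
    ((dz_continuous hη).const_mul 2).mul (ly_continuous hη)
  rw [even_int _ hc (fun x => by rw [dz_even, yf_even]) η] at hu
  have e4 : ∫ x in (0 : ℝ)..η, 2 * dz η x * Real.log (yf η x) =
      2 * ∫ x in (0 : ℝ)..η, dz η x * Real.log (yf η x) := by
    rw [← intervalIntegral.integral_const_mul]
    apply intervalIntegral.integral_congr
    intro x _
    simp only
    ring
  rw [e4] at hu
  linarith

/-- C-CF3 -/
theorem cf3 : S_cf3 := by
  intro h1 h2 η hη
  have hzd : ∀ x, HasDerivAt (zf η) (dz η x) x := fun x => zf_hasDerivAt hη x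
  have hl := ly_hasDerivAt hη
  have hlc := ly_continuous hη
  have hdc : Continuous fun x => deriv (yf η) x / yf η x :=
    (yf_deriv_continuous hη).div (yf_continuous hη) fun x => (yf_pos hη x).ne'
  have hparts : ∀ x : ℝ, ∫ v in (0 : ℝ)..x, zf η v * deriv (yf η) v / yf η v =
      zf η x * Real.log (yf η x) - ∫ v in (0 : ℝ)..x, dz η v * Real.log (yf η v) := by
    intro x
    have h3 := intervalIntegral.integral_mul_deriv_eq_deriv_mul (a := 0) (b := x)
      (u := zf η) (v := fun v => Real.log (yf η v)) (u' := dz η)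
      (v' := fun v => deriv (yf η) v / yf η v) (fun v _ => hzd v) (fun v _ => hl v)
      ((dz_continuous hη).intervalIntegrable _ _) (hdc.intervalIntegrable _ _)
    simp only [zf_zero, zero_mul, sub_zero] at h3
    rw [← h3]
    apply intervalIntegral.integral_congr
    intro v _
    simp only
    ring
  have hcont : Continuous fun x : ℝ => (zf η x * Real.log (yf η x) -
      ∫ v in (0 : ℝ)..x, dz η v * Real.log (yf η v)) - 1 / 2 * Real.log (yf η x) := by
    apply Continuous.sub
    · apply Continuous.sub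
      · exact (zf_continuous hη).mul hlc
      · exact intervalIntegral.continuous_primitive
          (fun a b => ((dz_continuous hη).mul hlc).intervalIntegrable a b) 0
    · exact hlc.const_mul _
  have hval : (zf η η * Real.log (yf η η) -
      ∫ v in (0 : ℝ)..η, dz η v * Real.log (yf η v)) - 1 / 2 * Real.log (yf η η) = 1 / 2 - Ph η := by
    rw [zf_eta hη, dz_value h1 hη, (h2 η hη).2, Real.log_div (oS_pos hη).ne' (by norm_num)]
    ring
  rw [← hval]
  have h4 := (hcont.tendsto η).mono_left (nhdsWithin_le_nhds (s := Set.Iio η))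
  refine h4.congr fun x => ?_
  rw [hparts]

end Pool.Agent.Q2.SL
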