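import Mathlib
import Pool.Agent.Q167.SL.StmC
import Pool.Agent.Q2.SL.Base
import Pool.Agent.Q2.SL.CFb
import Pool.Agent.Q2.SL.CFc

set_option autoImplicit false

/-!
Project SL2, C-CF4: the value of the dual exponent.
-/

open MeasureTheory Filter Topology

namespace Pool.Agent.Q2.SL

open Pool.Agent.Q167.SL

theorem sinh_line (x : ℝ) : Complex.sinh ((x : ℂ) + ((Real.pi / 2 : ℝ) : ℂ) * Complex.I) =
    ((Real.cosh x : ℝ) : ℂ) * Complex.I := by
  rw [Complex.sinh_add, Complex.cosh_mul_I, Complex.sinh_mul_I, ← Complex.ofReal_cos,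
    ← Complex.ofReal_sin, Real.cos_pi_div_two, Real.sin_pi_div_two]
  push_cast
  ring

theorem cosh_line (x : ℝ) : Complex.cosh ((x : ℂ) + ((Real.pi / 2 : ℝ) : ℂ) * Complex.I) =
    ((Real.sinh x : ℝ) : ℂ) * Complex.I := by
  rw [Complex.cosh_add, Complex.cosh_mul_I, Complex.sinh_mul_I, ← Complex.ofReal_cos,
    ← Complex.ofReal_sin, Real.cos_pi_div_two, Real.sin_pi_div_two]
  push_cast
  ring

theorem sq_line (x : ℝ) :
    Complex.sinh ((x : ℂ) + ((Real.pi / 2 : ℝ) : ℂ) * Complex.I) ^ 2 =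
      -((Real.cosh x ^ 2 : ℝ) : ℂ) := by
  rw [sinh_line, mul_pow, Complex.I_sq]
  push_cast
  ring

theorem sg_line {η : ℝ} (hη : 0 < η) (x : ℝ) :
    sg η ((x : ℂ) + ((Real.pi / 2 : ℝ) : ℂ) * Complex.I) = ((yf η x : ℝ) : ℂ) * Complex.I := by
  unfold sg
  rw [sq_line, Hf_real, sinh_line, ← (yf_nat hη x).tsum_eq, tsum_mul_left]
  push_cast
  ring

theorem zf_nat (η x : ℝ) : zf η x =
    Real.sinh x * Real.cosh x * ∑' l : ℕ, 1 / (Sl η l + Real.cosh x ^ 2) := by
  unfold zf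
  rw [← tsum_mul_left]
  apply tsum_congr
  intro l
  have h1 : Real.tanh ((2 * l + 1) * η + x) - Real.tanh ((2 * l + 1) * η - x) =
      Real.sinh (2 * x) / (Real.cosh ((2 * l + 1) * η + x) * Real.cosh ((2 * l + 1) * η - x)) := by
    rw [Real.tanh_eq_sinh_div_cosh, Real.tanh_eq_sinh_div_cosh,
      div_sub_div _ _ (Real.cosh_pos _).ne' (Real.cosh_pos _).ne', ← Real.sinh_sub]
    congr 2
    ring
  have h2 : Real.cosh ((2 * l + 1) * η + x) * Real.cosh ((2 * l + 1) * η - x) =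
      Sl η l + Real.cosh x ^ 2 := by
    have h3 := cosh_mul_cosh x ((2 * l + 1) * η)
    have h4 : Sl η l = Real.sinh ((2 * l + 1) * η) ^ 2 := rfl
    rw [h4, ← h3, ← Real.cosh_neg (x - (2 * l + 1) * η)]
    congr 2 <;> ring
  rw [h1, h2, Real.sinh_two_mul]
  ring

theorem tt_line {η : ℝ} (hη : 0 < η) (x : ℝ) :
    tt η ((x : ℂ) + ((Real.pi / 2 : ℝ) : ℂ) * Complex.I) =
      ((zf η x / yf η x : ℝ) : ℂ) * Complex.I := by
  have hc := Real.cosh_pos x
  have hB : ∑' l : ℕ, Cl η l / (Sl η l + Real.cosh x ^ 2) = yf η x / Real.cosh x := by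
    rw [← (yf_nat hη x).tsum_eq, tsum_mul_left]
    field_simp
  have hA : Real.sinh x * (∑' l : ℕ, 1 / (Sl η l + Real.cosh x ^ 2)) = zf η x / Real.cosh x := by
    rw [zf_nat]
    field_simp
  unfold tt
  rw [sq_line, Gf_real, Hf_real, cosh_line, hB]
  have e : ((Real.sinh x : ℝ) : ℂ) * Complex.I *
      ((∑' l : ℕ, 1 / (Sl η l + Real.cosh x ^ 2) : ℝ) : ℂ) =
      ((zf η x / Real.cosh x : ℝ) : ℂ) * Complex.I := by
    rw [← hA]
    push_cast
    ring
  rw [e]
  have hy := (yf_pos hη x).ne'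
  have hy2 : ((yf η x : ℝ) : ℂ) ≠ 0 := by exact_mod_cast hy
  have hc2 : ((Real.cosh x : ℝ) : ℂ) ≠ 0 := by exact_mod_cast hc.ne'
  rw [Complex.ofReal_div, Complex.ofReal_div, Complex.ofReal_div]
  field_simp

/-- C-CF4 -/
theorem cf4 : S_cf4 := by
  intro k1 k2 hcf3 hcf1 hcf2 η hη
  obtain ⟨hd, -, -, -, -, -, -⟩ := k1 η hη
  obtain ⟨hP, -, -, hre, -, -⟩ := k2 k1 η hη
  have h3 := hcf3 hcf1 hcf2 η hη
  -- the path
  have hpath : ∀ x : ℝ, HasDerivAt (fun x : ℝ => (x : ℂ) + ((Real.pi / 2 : ℝ) : ℂ) * Complex.I) 1 x := by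
    intro x
    exact (Complex.ofRealCLM.hasDerivAt (x := x)).add_const _
  have hrepath : ∀ x : ℝ, ((x : ℂ) + ((Real.pi / 2 : ℝ) : ℂ) * Complex.I).re = x := by
    intro x
    simp
  -- the derivative of `sg`
  have hsg : ∀ x : ℝ, |x| < η → deriv (sg η) ((x : ℂ) + ((Real.pi / 2 : ℝ) : ℂ) * Complex.I) =
      ((deriv (yf η) x : ℝ) : ℂ) * Complex.I := by
    intro x hx
    have h4 := (hd _ (by rw [hrepath]; exact hx)).1.hasDerivAt
    have h5 := HasDerivAt.scomp x h4 (hpath x)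
    have h6 : HasDerivAt (fun x : ℝ => ((yf η x : ℝ) : ℂ) * Complex.I)
        (((deriv (yf η) x : ℝ) : ℂ) * Complex.I) x :=
      ((yf_hasDerivAt hη x).differentiableAt.hasDerivAt.ofReal_comp).mul_const _
    have e : (sg η ∘ fun x : ℝ => (x : ℂ) + ((Real.pi / 2 : ℝ) : ℂ) * Complex.I) =
        fun x : ℝ => ((yf η x : ℝ) : ℂ) * Complex.I := by
      funext y
      exact sg_line hη y
    rw [e] at h5
    have h7 := h5.unique h6
    rw [one_smul] at h7
    exact h7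
  -- the derivative of the real part
  have hder : ∀ x : ℝ, |x| < η → HasDerivAt
      (fun x : ℝ => (Ps η ((x : ℂ) + ((Real.pi / 2 : ℝ) : ℂ) * Complex.I)).re)
      (zf η x * deriv (yf η) x / yf η x) x := by
    intro x hx
    have h4 := hP _ (by rw [hrepath]; exact hx)
    have h5 := HasDerivAt.scomp x h4 (hpath x)
    rw [hsg x hx, tt_line hη x, one_smul] at h5
    have h6 : -(((deriv (yf η) x : ℝ) : ℂ) * Complex.I * (((zf η x / yf η x : ℝ) : ℂ) * Complex.I)) =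
        ((zf η x * deriv (yf η) x / yf η x : ℝ) : ℂ) := by
      have hI : Complex.I * Complex.I = -1 := Complex.I_mul_I
      push_cast
      linear_combination -((deriv (yf η) x : ℝ) : ℂ) * ((zf η x : ℂ) / (yf η x : ℂ)) * hI
    rw [h6] at h5
    have h7 : HasDerivAt (fun y : ℝ => Complex.reCLM
        ((Ps η ∘ fun x : ℝ => (x : ℂ) + ((Real.pi / 2 : ℝ) : ℂ) * Complex.I) y))
        (Complex.reCLM ((zf η x * deriv (yf η) x / yf η x : ℝ) : ℂ)) x :=
      Complex.reCLM.hasFDerivAt.comp_hasDerivAt x h5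
    exact h7
  have hdc : Continuous fun x => zf η x * deriv (yf η) x / yf η x :=
    ((zf_continuous hη).mul (yf_deriv_continuous hη)).div (yf_continuous hη)
      fun x => (yf_pos hη x).ne'
  have hval : ∀ x : ℝ, 0 < x → x < η →
      (Ps η ((x : ℂ) + ((Real.pi / 2 : ℝ) : ℂ) * Complex.I)).re =
        ∫ v in (0 : ℝ)..x, zf η v * deriv (yf η) v / yf η v := by
    intro x hx0 hx
    rw [intervalIntegral.integral_eq_sub_of_hasDerivAt
      (f := fun x : ℝ => (Ps η ((x : ℂ) + ((Real.pi / 2 : ℝ) : ℂ) * Complex.I)).re)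
      (fun v hv => hder v ?_) (hdc.intervalIntegrable _ _)]
    · have h4 := hre (Real.pi / 2)
      simp only [Complex.ofReal_zero, zero_add]
      rw [h4, sub_zero]
    · rw [Set.uIcc_of_le hx0.le] at hv
      rw [abs_lt]
      constructor <;> linarith [hv.1, hv.2]
  refine h3.congr' ?_
  have hmem : Set.Ioo 0 η ∈ 𝓝[<] η := Ioo_mem_nhdsLT hη
  filter_upwards [hmem] with x hx
  rw [hval x hx.1 hx.2, sg_line hη x, norm_mul, Complex.norm_I, mul_one, Complex.norm_real,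
    Real.norm_eq_abs, abs_of_pos (yf_pos hη x)]

end Pool.Agent.Q2.SL
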